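import Pool.Agent.Lib.MP_d3ed34_co.Pow.Steps

set_option autoImplicit false

namespace Pool.Agent.Lib.MP_d3ed34_co.Dens

open Finset

theorem Sdec_filter (q : ℕ) (V : Finset ℕ) :
    Sdec q (V.filter fun x : ℕ => -(x : ℤ) < -(q : ℤ)) = Sdec q V := by
  unfold Sdec
  refine if_congr ⟨?_, ?_⟩ rfl rfl
  · rintro ⟨r, hr, h⟩
    exact ⟨r, (Finset.mem_filter.mp hr).1, h⟩
  · rintro ⟨r, hr, h⟩
    exact ⟨r, Finset.mem_filter.mpr ⟨hr, by omega⟩, h⟩

theorem Sinc_filter (q : ℕ) (V : Finset ℕ) :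
    Sinc q (V.filter fun x : ℕ => (x : ℤ) < (q : ℤ)) = Sinc q V := by
  unfold Sinc Tg
  rw [Finset.filter_filter]
  congr 3
  exact Finset.filter_congr fun x _ => ⟨fun h => h.2, fun h => ⟨by omega, h⟩⟩

theorem count_seq (κ : ℕ → ℤ) (hκ : Function.Injective κ) (S : ℕ → Finset ℕ → ℕ)
    (hS : ∀ q V, S q (V.filter fun x => κ x < κ q) = S q V) {y N Z : ℕ} (hy : 2 ≤ y)
    (hZ : 1 ≤ Z) {A : ℝ} (hA1 : 1 ≤ A)
    (hA : ∀ V ⊆ (Ioc y N).filter Nat.Prime, #V ≤ Nat.log y N →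
      ∑ q ∈ (Ioc y N).filter Nat.Prime, rt (S q V) / q ≤ A)
    (T : Finset ℕ) (hT : ∀ u ∈ T, u ≠ 0 ∧ u ≤ N ∧ ∃ V : Finset ℕ, (∀ p ∈ V, p.Prime ∧ y < p) ∧
      ∏ p ∈ V, p ∣ u ∧ Z ≤ ∏ q ∈ V, S q V) :
    (#T : ℝ) ≤ N / rt Z * (2 * A) ^ Nat.log y N := by
  have hZ1 := one_le_rt hZ
  have h := count_dvd (((Ioc y N).filter Nat.Prime).powerset.filter (fun V => #V ≤ Nat.log y N))
    (fun V => ∏ p ∈ V, p) (fun V => rt (∏ q ∈ V, S q V)) (fun _ => rt_nonneg _) N (Θ := rt Z)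
    (by linarith) T fun u hu => by
      obtain ⟨a1, a2, V, a3, a4, a5⟩ := hT u hu
      have a6 := (Nat.le_of_dvd (Nat.pos_of_ne_zero a1) a4).trans a2
      refine ⟨a1, a2, V, Finset.mem_filter.mpr ⟨Finset.mem_powerset.mpr fun p hp => ?_, ?_⟩, a4,
        rt_mono a5⟩
      · exact Finset.mem_filter.mpr ⟨Finset.mem_Ioc.mpr ⟨(a3 p hp).2,
          (Nat.le_of_dvd (Nat.pos_of_ne_zero a1) ((Finset.dvd_prod_of_mem _ hp).trans a4)).trans
            a2⟩, (a3 p hp).1⟩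
      · exact Nat.le_log_of_pow_le (by omega)
          ((Finset.pow_card_le_prod V _ _ fun p hp => (a3 p hp).2.le).trans a6)
  refine h.trans (mul_le_mul_of_nonneg_left ?_ (by positivity))
  refine le_trans (le_of_eq ?_) (seq_bound κ hκ _ (fun q V => rt (S q V) / q)
    (fun _ _ => div_nonneg (rt_nonneg _) (Nat.cast_nonneg _)) _ hA1 hA)
  refine Finset.sum_congr rfl fun V _ => ?_
  simp only [hS]
  rw [rt_prod, Nat.cast_prod, Finset.prod_div_distrib]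

theorem le_card_mul_totient {u : ℕ} (hu : u ≠ 0) : u ≤ #u.divisors * u.totient := by
  conv_lhs => rw [← Nat.sum_totient u]
  rw [← smul_eq_mul]
  exact Finset.sum_le_card_nsmul _ _ _ fun d hd => Nat.le_of_dvd
    (Nat.totient_pos.mpr (Nat.pos_of_ne_zero hu))
    (Nat.totient_dvd_of_dvd (Nat.dvd_of_mem_divisors hd))

theorem cubic_le {a ε s : ℝ} (ha : 0 ≤ a) (hε : 0 < ε) (hs : 0 ≤ s) :
    a * s ^ 3 ≤ ε * s ^ 4 + a * (a / ε) ^ 3 := by
  rcases le_total s (a / ε) with h | h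
  · have h1 : a * s ^ 3 ≤ a * (a / ε) ^ 3 := by gcongr
    have h2 : 0 ≤ ε * s ^ 4 := by positivity
    linarith
  · rw [div_le_iff₀ hε] at h
    have h1 : a * s ^ 3 ≤ s * ε * s ^ 3 := by gcongr
    have h2 : 0 ≤ a * (a / ε) ^ 3 := by positivity
    nlinarith

theorem small_exp : ∃ K : ℝ, ∀ L : ℕ, 1 ≤ L →
    ((L ^ 1440 : ℕ) : ℝ) ^ (1 / 2880 : ℝ) * (1 + Real.log ((L ^ 1440 : ℕ) : ℝ))
      ≤ L / 345600 + K := by
  refine ⟨5761 * (5761 / (1 / 345600)) ^ 3, fun L hL => ?_⟩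
  have hL1 : (1 : ℝ) ≤ L := by exact_mod_cast hL
  set s : ℝ := (L : ℝ) ^ (1 / 4 : ℝ) with hs
  have hs1 : 1 ≤ s := Real.one_le_rpow hL1 (by norm_num)
  have hs4 : s ^ 4 = L := by
    rw [hs, ← Real.rpow_natCast, ← Real.rpow_mul (by linarith)]
    norm_num
  have h1 : ((L ^ 1440 : ℕ) : ℝ) ^ (1 / 2880 : ℝ) = s ^ 2 := by
    rw [hs, Nat.cast_pow, ← Real.rpow_natCast, ← Real.rpow_natCast, ← Real.rpow_mul (by linarith),
      ← Real.rpow_mul (by linarith)]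
    norm_num
  have h2 : Real.log ((L ^ 1440 : ℕ) : ℝ) ≤ 5760 * s := by
    rw [Nat.cast_pow, Real.log_pow, ← hs4, Real.log_pow]
    have := Real.log_le_sub_one_of_pos (by linarith : 0 < s)
    push_cast
    linarith
  have h3 := cubic_le (a := 5761) (ε := 1 / 345600) (s := s) (by norm_num) (by norm_num)
    (by linarith)
  rw [h1]
  rw [hs4] at h3
  have h4 : s ^ 2 * (1 + Real.log ((L ^ 1440 : ℕ) : ℝ)) ≤ s ^ 2 * (5761 * s) := by
    gcongr
    linarith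
  nlinarith

theorem sparse_pow (Ex : ℕ → Prop) (h0 : ¬ Ex 0)
    (hE : ∀ u, Ex u → ∀ (m d : ℕ) (S : Finset ℕ), u = m * d →
      (∀ p ∈ S, p.Prime ∧ p ∣ u ∧ ¬ p ^ 2 ∣ u ∧ ∀ r : ℕ, r.Prime → r ∣ u → ¬ p ∣ r - 1) →
      (∀ q : ℕ, q.Prime → q ∣ m → ∀ p ∈ S, q ≠ p → ¬ Wf q p) →
      (∏ p ∈ S, p) * u.totient ≤ 4 ^ #S * d ^ 2 * u) :
    ∃ c C : ℝ, 0 < c ∧ ∀ N : ℕ, ({u | u ≤ N ∧ Ex u}.ncard : ℝ) ≤ C * (N : ℝ) ^ (1 - c) := by
  classical
  obtain ⟨C, hC1, hC⟩ := card_divisors_pow_le 60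
  obtain ⟨K, hK⟩ := small_exp
  refine ⟨1 / 172800, (C + 32) + 2 ^ 28 + 60 + Real.exp K + 2, by norm_num, fun N => ?_⟩
  have hset : {u | u ≤ N ∧ Ex u} = ((Icc 1 N).filter Ex : Finset ℕ) := by
    ext u
    simp only [Set.mem_ofPred_eq, Finset.coe_filter, Finset.mem_Icc]
    refine ⟨fun h => ⟨⟨Nat.pos_of_ne_zero ?_, h.1⟩, h.2⟩, fun h => ⟨h.1.2, h.2⟩⟩
    rintro rfl
    exact h0 h.2
  rw [hset, Set.ncard_coe_finset]
  have hcard : (#((Icc 1 N).filter Ex) : ℝ) ≤ N := by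
    have := Finset.card_filter_le (Icc 1 N) Ex
    rw [Nat.card_Icc, Nat.add_sub_cancel] at this
    exact_mod_cast this
  rcases Nat.eq_zero_or_pos N with rfl | hN
  · exact hcard.trans (by rw [Nat.cast_zero]; positivity)
  have hN0 : (0 : ℝ) < N := by exact_mod_cast hN
  set l := Real.log N with hl
  have hl0 : 0 ≤ l := Real.log_natCast_nonneg N
  have hNl : Real.exp l = N := Real.exp_log hN0
  set G := N * Real.exp (-(l / 172800)) with hG
  have hG0 : 0 < G := by positivity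
  rw [show (N : ℝ) ^ (1 - 1 / 172800 : ℝ) = G by
    rw [sub_eq_add_neg, Real.rpow_add hN0, Real.rpow_one, Real.rpow_def_of_pos hN0, hG]
    congr 2
    ring]
  have hK0 : 0 < Real.exp K := Real.exp_pos K
  have hC0 : (0 : ℝ) ≤ C := Nat.cast_nonneg C
  by_cases hsm : N ≤ C + 32
  · have b1 : (N : ℝ) ≤ C + 32 := by exact_mod_cast hsm
    have b2 : 1 ≤ N * Real.exp (-(l / 172800)) := by
      rw [← hNl, ← Real.exp_add]
      exact Real.one_le_exp (by linarith)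
    nlinarith
  push Not at hsm
  set L := Nat.log 2 N + 1 with hL
  have hNL : N < 2 ^ L := Nat.lt_pow_succ_log_self (by norm_num) N
  have hL6 : 6 ≤ L := by
    have : 5 ≤ Nat.log 2 N := Nat.le_log_of_pow_le (by norm_num) (by omega)
    omega
  have hL6' : (6 : ℝ) ≤ L := by exact_mod_cast hL6
  have hLl : (L : ℝ) ≤ 2 * l := by
    have a1 : ((2 ^ Nat.log 2 N : ℕ) : ℝ) ≤ N := by exact_mod_cast Nat.pow_log_le_self 2 hN.ne'
    have a2 := Real.log_le_log (by positivity) a1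
    rw [Nat.cast_pow, Real.log_pow] at a2
    have a3 : (L : ℝ) = Nat.log 2 N + 1 := by rw [hL]; push_cast; rfl
    have a4 := Real.log_two_gt_d9
    push_cast at a2
    nlinarith
  obtain ⟨y, hy1, hy3, hy4⟩ : ∃ y : ℕ, L ^ 24 ≤ y ∧
      (y : ℝ) ^ (1 / 2880 : ℝ) * (1 + Real.log y) ≤ L / 345600 + K ∧
      ∀ k, y ^ k = ((L ^ 3) ^ k) ^ 480 :=
    ⟨L ^ 1440, Nat.pow_le_pow_right (le_trans (by norm_num) hL6) (by norm_num),
      hK L (le_trans (by norm_num) hL6), fun k => by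
      rw [← pow_mul, ← pow_mul, ← pow_mul]
      congr 1
      omega⟩
  have hy2 : 16 ≤ y := le_trans (by norm_num) ((Nat.pow_le_pow_left hL6 24).trans hy1)
  have hk : Nat.log y N ≤ L := (Nat.log_anti_left (by norm_num) (by omega)).trans (Nat.le_succ _)
  set Z := ⌈Real.exp (l / 30)⌉₊ with hZ
  have hE1 : 1 ≤ Real.exp (l / 30) := Real.one_le_exp (by linarith)
  have hZ1 : Real.exp (l / 30) ≤ Z := Nat.le_ceil _
  have hZ2 : (Z : ℝ) ≤ 2 * Real.exp (l / 30) := by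
    linarith [Nat.ceil_lt_add_one (by positivity : 0 ≤ Real.exp (l / 30))]
  have hZ3 : 1 ≤ Z := by exact_mod_cast hE1.trans hZ1
  have hZ4 : N ≤ Z ^ 30 := by
    have a1 : (N : ℝ) ≤ (Z : ℝ) ^ 30 := by
      refine le_trans (le_of_eq ?_) (pow_le_pow_left₀ (by positivity) hZ1 30)
      rw [← Real.exp_nat_mul, ← hNl]
      congr 1
      push_cast
      ring
    exact_mod_cast a1
  have hZr : ∀ e : ℝ, 0 ≤ e → Real.exp (l / 30 * e) ≤ (Z : ℝ) ^ e := fun e he => by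
    rw [Real.exp_mul]
    exact Real.rpow_le_rpow (by positivity) hZ1 he
  set T := (Icc 1 N).filter Ex with hT
  set T0 := Icc 1 (Z ^ 28) with hT0
  set T1 := (Icc 1 N).filter fun u => ∃ b, Z ≤ b ∧ b ^ 2 ∣ u with hT1
  set T2 := (Icc 1 N).filter fun u => ∃ A : Finset ℕ, (∀ p ∈ A, p.Prime ∧ p ≤ y) ∧
    ∏ p ∈ A, p ∣ u ∧ Z ≤ ∏ p ∈ A, p with hT2
  set T3 := (Icc 1 N).filter fun u => ∃ V : Finset ℕ, (∀ p ∈ V, p.Prime ∧ y < p) ∧
    ∏ p ∈ V, p ∣ u ∧ Z ≤ ∏ q ∈ V, Sdec q V with hT3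
  set T4 := (Icc 1 N).filter fun u => ∃ V : Finset ℕ, (∀ p ∈ V, p.Prime ∧ y < p) ∧
    ∏ p ∈ V, p ∣ u ∧ Z ≤ ∏ q ∈ V, Sinc q V with hT4
  have hsub : T ⊆ T0 ∪ T1 ∪ T2 ∪ T3 ∪ T4 := by
    intro u hu
    obtain ⟨a1, a2⟩ := Finset.mem_filter.mp hu
    obtain ⟨a3, a4⟩ := Finset.mem_Icc.mp a1
    simp only [Finset.mem_union]
    by_cases hb : u ≤ Z ^ 28
    · exact Or.inl (Or.inl (Or.inl (Or.inl (Finset.mem_Icc.mpr ⟨a3, hb⟩))))
    have a5 : #u.divisors ≤ Z := by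
      refine le_of_pow_le_pow_left₀ (n := 60) (by norm_num) (Nat.zero_le _) ?_
      calc #u.divisors ^ 60 ≤ C * u := hC u (by omega)
        _ ≤ N * N := Nat.mul_le_mul (by omega) a4
        _ ≤ Z ^ 30 * Z ^ 30 := Nat.mul_le_mul hZ4 hZ4
        _ = _ := by ring
    rcases struct_pow (by omega) hy2
      ((le_card_mul_totient (by omega)).trans (Nat.mul_le_mul_right _ a5)) (not_le.mp hb)
      (hE u a2) with h | h | ⟨V, b1, b2, h | h⟩
    · exact Or.inl (Or.inl (Or.inl (Or.inr (Finset.mem_filter.mpr ⟨a1, h⟩))))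
    · exact Or.inl (Or.inl (Or.inr (Finset.mem_filter.mpr ⟨a1, h⟩)))
    · exact Or.inl (Or.inr (Finset.mem_filter.mpr ⟨a1, V, b1, b2, h⟩))
    · exact Or.inr (Finset.mem_filter.mpr ⟨a1, V, b1, b2, h⟩)
  have hsum : (#T : ℝ) ≤ #T0 + #T1 + #T2 + #T3 + #T4 := by
    have a1 := Finset.card_le_card hsub
    have a2 := Finset.card_union_le (T0 ∪ T1 ∪ T2 ∪ T3) T4
    have a3 := Finset.card_union_le (T0 ∪ T1 ∪ T2) T3
    have a4 := Finset.card_union_le (T0 ∪ T1) T2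
    have a5 := Finset.card_union_le T0 T1
    have a6 : #T ≤ #T0 + #T1 + #T2 + #T3 + #T4 := by omega
    exact_mod_cast a6
  have hmem : ∀ {u : ℕ}, u ∈ Icc 1 N → u ≠ 0 ∧ u ≤ N := fun h =>
    ⟨by have := (Finset.mem_Icc.mp h).1; omega, (Finset.mem_Icc.mp h).2⟩
  have hGe : ∀ {x a b : ℝ}, Real.exp a ≤ x → b - a ≤ -(l / 172800) →
      N / x * Real.exp b ≤ G := fun {x a b} h1 h2 => by
    calc N / x * Real.exp b ≤ N / Real.exp a * Real.exp b := by gcongr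
      _ = N * Real.exp (b - a) := by rw [Real.exp_sub]; ring
      _ ≤ G := by rw [hG]; gcongr
  have b0 : (#T0 : ℝ) ≤ 2 ^ 28 * G := by
    rw [hT0, Nat.card_Icc, Nat.add_sub_cancel, Nat.cast_pow]
    refine (pow_le_pow_left₀ (Nat.cast_nonneg _) hZ2 28).trans ?_
    rw [mul_pow, hG, ← hNl, ← Real.exp_add, ← Real.exp_nat_mul]
    gcongr
    push_cast
    linarith
  have b1 : (#T1 : ℝ) ≤ 60 * G := by
    have a1 := count_dvd (Icc 1 N) (fun b => b ^ 2) (fun b => (b : ℝ)) (fun _ => Nat.cast_nonneg _)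
      N (Θ := Z) (by linarith) T1 fun u hu => by
        obtain ⟨c1, b, c2, c3⟩ := Finset.mem_filter.mp hu
        obtain ⟨c4, c5⟩ := hmem c1
        exact ⟨c4, c5, b, Finset.mem_Icc.mpr ⟨hZ3.trans c2, (Nat.le_of_dvd (Nat.pos_of_ne_zero c4)
          ((dvd_pow_self b (by norm_num)).trans c3)).trans c5⟩, c3, by exact_mod_cast c2⟩
    have a2 : ∑ b ∈ Icc 1 N, (b : ℝ) / ((b ^ 2 : ℕ) : ℝ) ≤ 60 * Real.exp (l / 60) := by
      refine le_trans (le_of_eq (Finset.sum_congr rfl fun b hb => ?_))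
        ((sum_inv_le N).trans (by linarith [Real.add_one_le_exp (l / 60)]))
      have : (b : ℝ) ≠ 0 := by exact_mod_cast (hmem hb).1
      push_cast
      field_simp
    have a3 := hGe (b := l / 60) hZ1 (by linarith)
    calc (#T1 : ℝ) ≤ N / Z * (60 * Real.exp (l / 60)) := a1.trans (by gcongr)
      _ = 60 * (N / Z * Real.exp (l / 60)) := by ring
      _ ≤ _ := by gcongr
  have b2 : (#T2 : ℝ) ≤ Real.exp K * G := by
    have a1 := count_dvd (Icc 1 y).powerset (fun A => ∏ p ∈ A, p)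
      (fun A => ((∏ p ∈ A, p : ℕ) : ℝ) ^ (1 / 2880 : ℝ)) (fun _ => by positivity)
      N (Θ := (Z : ℝ) ^ (1 / 2880 : ℝ)) (by positivity) T2 fun u hu => by
        obtain ⟨c1, A, c2, c3, c6⟩ := Finset.mem_filter.mp hu
        obtain ⟨c4, c5⟩ := hmem c1
        exact ⟨c4, c5, A, Finset.mem_powerset.mpr fun p hp =>
          Finset.mem_Icc.mpr ⟨(c2 p hp).1.one_le, (c2 p hp).2⟩, c3,
          Real.rpow_le_rpow (Nat.cast_nonneg _) (by exact_mod_cast c6) (by norm_num)⟩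
    have a2 := (small_sum (y := y) (η := 1 / 2880) (by norm_num)).trans
      (Real.exp_le_exp.mpr hy3)
    have a3 := hGe (b := L / 345600) (hZr (1 / 2880) (by norm_num)) (by linarith)
    calc (#T2 : ℝ) ≤ N / (Z : ℝ) ^ (1 / 2880 : ℝ) * Real.exp (L / 345600 + K) :=
          a1.trans (by gcongr)
      _ = Real.exp K * (N / (Z : ℝ) ^ (1 / 2880 : ℝ) * Real.exp (L / 345600)) := by
          rw [Real.exp_add]; ring
      _ ≤ _ := by gcongr
  have hseq : (N : ℝ) / rt Z * (2 * (3 * L + 22)) ^ Nat.log y N ≤ G := by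
    have a1 : ((2 : ℝ) * (3 * L + 22)) ^ Nat.log y N ≤ Real.exp (l / 480) := by
      have c1 : (2 : ℝ) * (3 * L + 22) ≤ L ^ 3 := by
        nlinarith [mul_pos (by linarith : (0 : ℝ) < L) (by linarith : (0 : ℝ) < L)]
      refine (pow_le_pow_left₀ (by positivity) c1 _).trans ?_
      refine le_of_pow_le_pow_left₀ (n := 480) (by norm_num) (by positivity) ?_
      rw [← Real.exp_nat_mul, show ((480 : ℕ) : ℝ) * (l / 480) = l by push_cast; ring, hNl]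
      have c2 := Nat.pow_log_le_self y hN.ne'
      rw [hy4] at c2
      have c3 := (Nat.cast_le (α := ℝ)).mpr c2
      rwa [Nat.cast_pow, Nat.cast_pow, Nat.cast_pow] at c3
    have a2 := one_le_rt hZ3
    exact le_trans (by gcongr)
      (hGe (x := rt Z) (b := l / 480) (hZr (1 / 8) (by norm_num)) (by linarith))
  have b3 : (#T3 : ℝ) ≤ G := (count_seq (fun x => -(x : ℤ)) (fun a b h => by simpa using h) Sdec
    Sdec_filter (by omega) hZ3 (by linarith) (step_dec hNL (by omega) hy1 hk) T3 fun u hu =>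
      ⟨(hmem (Finset.mem_filter.mp hu).1).1, (hmem (Finset.mem_filter.mp hu).1).2,
        (Finset.mem_filter.mp hu).2⟩).trans hseq
  have b4 : (#T4 : ℝ) ≤ G := (count_seq (fun x => (x : ℤ)) (fun a b h => by simpa using h) Sinc
    Sinc_filter (by omega) hZ3 (by linarith) (step_inc hNL (by omega) hy1 hk) T4 fun u hu =>
      ⟨(hmem (Finset.mem_filter.mp hu).1).1, (hmem (Finset.mem_filter.mp hu).1).2,
        (Finset.mem_filter.mp hu).2⟩).trans hseq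
  have b5 : 0 ≤ (C + 32) * G := by positivity
  linarith

end Pool.Agent.Lib.MP_d3ed34_co.Dens
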