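import Pool.Agent.Lib.MP_d3ed34_co.Dens.Crit

set_option autoImplicit false
set_option linter.unusedSectionVars false

namespace Pool.Agent.Lib.MP_d3ed34_co.Dens

open Finset NumberField

section
variable {R : Type*} [CommRing R] [IsDedekindDomain R] [CharZero R]
variable {H : Type*} [CommRing H] [Fintype H] [DecidableEq H]
variable {p : ℕ} [hp : Fact p.Prime]
variable {ψ : AddChar H R} {χ : AddChar (ZMod p) R} {c : H →+* ZMod p} {σ : R →+* R}

theorem Gr.cut_dvd' (h : Gr ψ χ c σ) (hp2 : p ≠ 2) (f : H → ℤ) {M₀ : ℕ} (hM0 : M₀ ≠ 0) (b : R)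
    (hfix : ∀ q : ℕ, q.Prime → q ∣ M₀ → q ≠ p →
      ∀ P : Ideal R, P.IsPrime → (q : R) ∈ P → ∀ y ∈ P, σ y ∈ P)
    (hx : (M₀ : R) ∣ b * (FZ ψ f 1 * FZ ψ f (-1))) (i : ZMod p) :
    (M₀ : R) ∣ b * (χ 1 - 1) ^ 2 * (FZ ψ (cut c f i) 1 * FZ ψ (cut c f i) (-1)) := by
  obtain ⟨a, m, hm, rfl⟩ := Nat.exists_eq_pow_mul_and_not_dvd hM0 p hp.out.ne_one
  set π := χ 1 - 1 with hπ
  set M : R := ((p ^ a * m : ℕ) : R) with hM
  have hpπ : (p : R) ∣ π ^ p := by
    have := dvd_pow_sub_one (R := R) hp2 (w := χ 1) (k := 1) (by rw [chr_pow]; simp)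
    rwa [pow_one] at this
  have hπ0 : π ≠ 0 := by
    rw [hπ, sub_ne_zero, Ne, chr_eq_one h.prim]
    exact one_ne_zero
  have hπP : ∀ P : Ideal R, P.IsPrime → (p : R) ∈ P → π ∈ P := fun P hP h1 =>
    hP.mem_of_pow_mem p (P.mem_of_dvd hpπ h1)
  have hstab : ∀ P : Ideal R, P.IsPrime → M ∈ P → ∀ y ∈ P, σ y ∈ P := by
    intro P hP hMP
    obtain ⟨q, hq, hd, hqP⟩ := exists_prime_mem P hP _ hM0 hMP
    by_cases hqp : q = p
    · subst hqp
      intro y hy
      have := P.add_mem (P.mem_of_dvd (h.inert y) (hπP P hP hqP)) hy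
      simpa using this
    · exact hfix q hq hd hqp P hP hqP
  have key : ∀ (x X : R) (k : ZMod p), SS χ σ k x = p * X → π * X ∈ Ideal.span {x, M} := by
    intro x X k hX
    have hMI : M ∈ Ideal.span {x, M} := Ideal.subset_span (by simp)
    refine step σ hp.out.pos (Nat.cast_ne_zero.mpr hp.out.ne_zero) h.pow_p hπ0
      (by rw [hπ, map_sub, h.sχ, map_one σ]) h.inert _ (SS χ σ k) (SS_mul χ k) (h.SS_dvd k)
      (SS_mem χ k _ (inv_ideal σ M hstab _ hMI)) (fun P hP hpP => ⟨hπP P hP.isPrime hpP, m, p * a,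
        fun hmP => ?_, ?_⟩) (Ideal.subset_span (by simp)) hX
    · have hco : IsCoprime (p : R) (m : R) :=
        Nat.Coprime.cast ((Nat.Prime.coprime_iff_not_dvd hp.out).mpr hm)
      obtain ⟨u, v, huv⟩ := hco
      exact (Ideal.ne_top_iff_one P).mp hP.ne_top
        (huv ▸ P.add_mem (P.mul_mem_left u hpP) (P.mul_mem_left v hmP))
    · refine Ideal.mem_of_dvd _ ?_ hMI
      rw [hM, Nat.cast_mul, Nat.cast_pow, mul_comm, pow_mul]
      exact mul_dvd_mul_left _ (pow_dvd_pow_of_dvd hpπ a)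
  obtain ⟨α, β, h1⟩ := Ideal.mem_span_pair.mp (key _ _ _ (h.SS_pos f i))
  obtain ⟨α', β', h2⟩ := Ideal.mem_span_pair.mp (key _ _ _ (h.SS_neg f i))
  obtain ⟨w, hw⟩ := hx
  refine ⟨α * α' * w + b * (α * FZ ψ f 1 * β' + β * (α' * FZ ψ f (-1) + β' * M)), ?_⟩
  linear_combination (-(b * π * FZ ψ (cut c f i) (-1))) * h1 - b * (α * FZ ψ f 1 + β * M) * h2
    + α * α' * hw

theorem exists_cut_ne (ψ : AddChar H R) (c : H →+* ZMod p) (f : H → ℤ) (hf : FZ ψ f 1 ≠ 0) :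
    ∃ i, FZ ψ (cut c f i) 1 ≠ 0 := by
  by_contra hc
  push Not at hc
  apply hf
  have : FZ ψ f 1 = ∑ i, FZ ψ (cut c f i) 1 := by
    unfold FZ FT cut
    rw [Finset.sum_comm]
    refine Finset.sum_congr rfl fun g _ => ?_
    rw [Finset.sum_eq_single (c g)]
    · simp
    · intro j _ hj
      simp [Ne.symm hj]
    · simp
  rw [this]
  exact Finset.sum_eq_zero fun i _ => hc i

end

theorem supp_le (t P : ℕ) [NeZero t] (hP : P ∣ t) (f : ZMod t → ℤ) (hf : ∀ g, |f g| ≤ 1)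
    (hs : ∀ g g', f g ≠ 0 → f g' ≠ 0 → g.val ≡ g'.val [MOD P]) :
    (P : ℝ) * ∑ g, (f g : ℝ) ^ 2 ≤ t := by
  have : NeZero P := ⟨ne_zero_of_dvd_ne_zero (NeZero.ne t) hP⟩
  by_cases h0 : ∀ g, f g = 0
  · simp [h0]
  push Not at h0
  obtain ⟨g₀, hg₀⟩ := h0
  set c : ZMod t →+* ZMod P := ZMod.castHom hP (ZMod P) with hc
  have hcv : ∀ g : ZMod t, c g = (g.val : ZMod P) := fun g => by
    rw [hc, ZMod.castHom_apply, ZMod.natCast_val]
  have hsj : Function.Surjective c := ZMod.ringHom_surjective c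
  have h1 : Fintype.card (ZMod t) = ∑ j : ZMod P, #{g | c g = j} :=
    Finset.card_eq_sum_card_fiberwise fun _ _ => Finset.mem_coe.mpr (Finset.mem_univ _)
  have h2 : ∀ j : ZMod P, #{g | c g = j} = #{g | c g = c g₀} := fun j =>
    AddMonoidHom.card_fiber_eq_of_mem_range c (hsj j) (hsj _)
  simp only [h2, Finset.sum_const, Finset.card_univ, ZMod.card, smul_eq_mul] at h1
  have h3 : (t : ℝ) = P * (#{g | c g = c g₀} : ℕ) := by exact_mod_cast h1
  rw [h3]
  refine mul_le_mul_of_nonneg_left ?_ (Nat.cast_nonneg _)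
  rw [Finset.card_filter, Nat.cast_sum]
  refine Finset.sum_le_sum fun g _ => ?_
  split_ifs with h
  · have : (f g) ^ 2 ≤ 1 := (sq_le_one_iff_abs_le_one _).mpr (hf g)
    exact_mod_cast this
  · have : f g = 0 := by
      by_contra hg
      apply h
      rw [hcv, hcv, ZMod.natCast_eq_natCast_iff]
      exact hs g g₀ hg hg₀
    simp [this]

theorem multi_aux (t : ℕ) [NeZero t] (S : Finset ℕ) {M : ℕ} (hMt : M ∣ t)
    (hS : ∀ p ∈ S, p.Prime ∧ p ≠ 2 ∧ ∃ e, t = e * p ∧ p ∣ e ∧ ∀ q : ℕ, q.Prime → q ∣ M → q ≠ p →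
      ∃ j k : ℕ, (q : ZMod t) ^ k * (1 + (e : ZMod t) - (q : ZMod t) ^ j) = 0)
    (X Y : ZMod t → ℤ) (hX : ∀ g, |X g| ≤ 1) (hY : ∀ g, |Y g| ≤ 1)
    (h1 : ∀ c, ∑ g, X (c + g) * X g + ∑ g, Y (c + g) * Y g = if c = 0 then (t : ℤ) else 0)
    (h2 : ∀ c, ∑ g, Y (c + g) * X g = 0)
    (K : Type) [Field K] [NumberField K] [IsCyclotomicExtension {t} ℚ K] :
    t.totient * M * ∏ p ∈ S, p ≤ 4 ^ #S * t ^ 2 := by
  classical
  have ht0 : 0 < t := NeZero.pos t
  have hM0 : M ≠ 0 := ne_zero_of_dvd_ne_zero ht0.ne' hMt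
  have hz := IsCyclotomicExtension.zeta_spec t ℚ K
  have hω := hz.toInteger_isPrimitiveRoot
  have htop := IsCyclotomicExtension.Rat.adjoin_singleton_eq_top hz
  set ω := hz.toInteger with hωdef
  set ψ : AddChar (ZMod t) (𝓞 K) := AddChar.zmodChar t hω.pow_eq_one with hψ
  have hψ1 : ψ 1 = ω := by
    have := AddChar.zmodChar_apply' hω.pow_eq_one 1
    rwa [Nat.cast_one, pow_one] at this
  have hspan : ∀ y, y ∈ Submodule.span ℤ (Set.range ψ) := by
    intro y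
    have hy : y ∈ Algebra.adjoin ℤ {ω} := htop ▸ Algebra.mem_top
    rw [Algebra.adjoin_singleton_eq_range_aeval] at hy
    obtain ⟨Γ, hΓ⟩ := hy
    obtain ⟨γ, hγ⟩ := exists_ofPoly ψ Γ
    have : y = FZ ψ γ 1 := by rw [hγ, hψ1]; exact hΓ.symm
    rw [this]
    refine Submodule.sum_mem _ fun g _ => ?_
    rw [← zsmul_eq_mul]
    exact Submodule.smul_mem _ _ (Submodule.subset_span ⟨_, rfl⟩)
  have hGr : ∀ (p e : ℕ) [Fact p.Prime], t = e * p → p ∣ e →
      ∃ (χ : AddChar (ZMod p) (𝓞 K)) (c : ZMod t →+* ZMod p) (σ : 𝓞 K →+* 𝓞 K), Gr ψ χ c σ ∧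
        (∀ g, σ (ψ g) = ψ ((1 + (e : ZMod t)) * g)) ∧ ∀ g, c g = (g.val : ZMod p) := by
    intro p e _ ht hpe
    have hζ : IsPrimitiveRoot (ω ^ e) p := hω.pow ht0 ht
    have hpt : p ∣ t := ht ▸ dvd_mul_left p e
    set χ : AddChar (ZMod p) (𝓞 K) := AddChar.zmodChar p hζ.pow_eq_one with hχ
    set c : ZMod t →+* ZMod p := ZMod.castHom hpt (ZMod p) with hc
    have hee : (e : ZMod t) * e = 0 := by
      obtain ⟨e', he'⟩ := hpe
      have : e * e = t * e' := by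
        rw [ht, mul_assoc, ← he']
      rw [← Nat.cast_mul, this, Nat.cast_mul, ZMod.natCast_self, zero_mul]
    have hu : IsUnit (1 + (e : ZMod t)) :=
      IsUnit.of_mul_eq_one (1 - (e : ZMod t)) (by linear_combination -hee)
    set τ := (IsCyclotomicExtension.Rat.galEquivZMod t K).symm hu.unit with hτ
    set σ := MulSemiringAction.toRingHom Gal(K/ℚ) (𝓞 K) τ with hσdef
    have hσ : ∀ x : 𝓞 K, x ^ t = 1 → σ x = x ^ (1 + (e : ZMod t)).val := by
      intro x hx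
      have := IsCyclotomicExtension.Rat.galEquivZMod_smul_of_pow_eq t K τ hx
      rw [hτ, MulEquiv.apply_symm_apply, IsUnit.unit_spec] at this
      exact this
    have hcv : ∀ g : ZMod t, c g = (g.val : ZMod p) := fun g => by
      rw [hc, ZMod.castHom_apply, ZMod.natCast_val]
    have hσψ : ∀ g, σ (ψ g) = ψ ((1 + (e : ZMod t)) * g) := by
      intro g
      rw [hσ _ (by rw [chr_pow]; simp), chr_pow, ZMod.natCast_zmod_val, mul_comm]
    refine ⟨χ, c, σ, ?_, hσψ, hcv⟩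
    refine ⟨AddChar.zmodChar_primitive_of_primitive_root _ hζ, fun g => ?_, fun k => ?_, hspan⟩
    · rw [hσψ, add_mul, one_mul, AddChar.map_add_eq_mul, mul_comm (e : ZMod t), ← chr_pow, hcv,
        hχ, AddChar.zmodChar_apply', hψ, AddChar.zmodChar_apply, ← pow_mul, ← pow_mul,
        mul_comm e]
    · rw [hσ _ (by rw [chr_pow, (ZMod.natCast_eq_zero_iff t p).mpr hpt]; simp), chr_pow, ← hcv,
        map_add, map_one, map_natCast, (ZMod.natCast_eq_zero_iff e p).mpr hpe, add_zero, mul_one]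
  set E : (K →ₐ[ℚ] ℂ) → (𝓞 K →+* ℂ) := fun φ => φ.toRingHom.comp (algebraMap (𝓞 K) K) with hE
  have hinj : Function.Injective fun φ => (E φ).toMonoidHom.compAddChar ψ := by
    intro φ φ' h
    have := DFunLike.congr_fun h 1
    refine (hz.powerBasis ℚ).algHom_ext ?_
    rw [hz.powerBasis_gen ℚ]
    simp only [MonoidHom.compAddChar_apply, Function.comp_apply, hψ1] at this
    exact this
  have key : ∀ f : ZMod t → ℤ, (∀ g, |f g| ≤ 1) → FZ ψ f 1 * FZ ψ f (-1) = t →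
      t.totient * M * ∏ p ∈ S, p ≤ 4 ^ #S * t ^ 2 := by
    intro f hf hx
    have ind : ∀ T : Finset ℕ, T ⊆ S → ∃ (f' : ZMod t → ℤ) (b : 𝓞 K), (∀ g, |f' g| ≤ 1) ∧
        FZ ψ f' 1 ≠ 0 ∧ b ≠ 0 ∧ (∀ φ, ‖E φ b‖ ≤ 4 ^ #T) ∧
        (M : 𝓞 K) ∣ b * (FZ ψ f' 1 * FZ ψ f' (-1)) ∧
        ∀ g g', f' g ≠ 0 → f' g' ≠ 0 → g.val ≡ g'.val [MOD ∏ p ∈ T, p] := by
      intro T
      induction T using Finset.induction_on with
      | empty =>
        intro _
        refine ⟨f, 1, hf, fun h => ?_, one_ne_zero, fun φ => by simp, ?_, fun g g' _ _ => ?_⟩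
        · rw [h, zero_mul] at hx
          exact ht0.ne' (by exact_mod_cast hx.symm)
        · rw [one_mul, hx]
          exact Nat.cast_dvd_cast hMt
        · simpa using Nat.modEq_one
      | insert p T hpT ih =>
        intro hsub
        obtain ⟨f', b, a1, a2, a3, a4, a5, a6⟩ := ih ((Finset.subset_insert _ _).trans hsub)
        obtain ⟨hp, hp2, e, ht, hpe, hq⟩ := hS p (hsub (Finset.mem_insert_self _ _))
        have := Fact.mk hp
        obtain ⟨χ, c, σ, hG, hσψ, hcv⟩ := hGr p e ht hpe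
        obtain ⟨i, hi⟩ := exists_cut_ne ψ c f' a2
        have hπ0 : χ 1 - 1 ≠ 0 := by
          rw [sub_ne_zero, Ne, chr_eq_one hG.prim]
          exact one_ne_zero
        refine ⟨cut c f' i, b * (χ 1 - 1) ^ 2, fun g => ?_, hi, mul_ne_zero a3 (pow_ne_zero 2 hπ0),
          fun φ => ?_, hG.cut_dvd' hp2 f' hM0 b (fun q hq' hqm hqp => ?_) a5 i,
          fun g g' hg hg' => ?_⟩
        · unfold cut
          split_ifs
          · exact a1 g
          · simp
        · have b2 : ‖E φ (χ 1 - 1)‖ ≤ 2 := by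
            rw [map_sub, map_one (E φ)]
            have := ((E φ).toMonoidHom.compAddChar χ).norm_apply 1
            have b3 : ‖E φ (χ 1)‖ = 1 := this
            refine (norm_sub_le _ _).trans ?_
            rw [b3, norm_one]
            norm_num
          rw [map_mul, map_pow, norm_mul, norm_pow, Finset.card_insert_of_notMem hpT, pow_succ]
          have b5 : ‖E φ (χ 1 - 1)‖ ^ 2 ≤ 2 ^ 2 := by gcongr
          exact mul_le_mul (a4 φ) (by linarith) (by positivity) (pow_nonneg (by norm_num) _)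
        · obtain ⟨j, k, h⟩ := hq q hq' hqm hqp
          exact frob_fix ψ hspan σ hσψ hq' h
        · unfold cut at hg hg'
          have c1 : c g = i := by by_contra hc; exact hg (if_neg hc)
          have c2 : c g' = i := by by_contra hc; exact hg' (if_neg hc)
          rw [if_pos c1] at hg
          rw [if_pos c2] at hg'
          rw [Finset.prod_insert hpT]
          refine (Nat.modEq_and_modEq_iff_modEq_mul ?_).mp ⟨?_, a6 g g' hg hg'⟩
          · refine Nat.Coprime.prod_right fun r hr => ?_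
            refine (Nat.coprime_primes hp (hS r (hsub (Finset.mem_insert_of_mem hr))).1).mpr ?_
            rintro rfl
            exact hpT hr
          · rw [← ZMod.natCast_eq_natCast_iff, ← hcv, ← hcv, c1, c2]
    obtain ⟨f', b, a1, a2, a3, a4, ⟨z, a5⟩, a6⟩ := ind S subset_rfl
    have hPt : ∏ p ∈ S, p ∣ t := by
      refine Finset.prod_primes_dvd t (fun p hp => (hS p hp).1.prime) fun p hp => ?_
      obtain ⟨-, -, e, ht, -⟩ := hS p hp
      exact ht ▸ dvd_mul_left p e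
    set a : (K →ₐ[ℚ] ℂ) → ℝ := fun φ => ‖FZ ((E φ).toMonoidHom.compAddChar ψ) f' 1‖ ^ 2 with ha
    have b1 : ∀ φ, E φ (FZ ψ f' 1 * FZ ψ f' (-1)) = (a φ : ℂ) := fun φ => by
      rw [map_mul, map_FZ, map_FZ, norm_FZ_neg]
    have hne : Nonempty (K →ₐ[ℚ] ℂ) :=
      Fintype.card_pos_iff.mp (by rw [AlgHom.card]; exact Module.finrank_pos)
    have hz0 : z ≠ 0 := by
      rintro rfl
      obtain ⟨φ⟩ := hne
      rw [mul_zero] at a5
      have c1 := (mul_eq_zero.mp a5).resolve_left a3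
      have c2 := b1 φ
      rw [c1, map_zero] at c2
      have c3 : a φ = 0 := by exact_mod_cast c2.symm
      have c4 : FZ ((E φ).toMonoidHom.compAddChar ψ) f' 1 = 0 := by
        simpa [ha] using c3
      rw [← map_FZ] at c4
      have c5 : Function.Injective (E φ) :=
        φ.toRingHom.injective.comp (FaithfulSMul.algebraMap_injective (𝓞 K) K)
      exact a2 (c5 (by rw [c4, map_zero]))
    have b2 : (Fintype.card (K →ₐ[ℚ] ℂ) : ℝ) * M ≤ 4 ^ #S * ∑ φ, a φ := by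
      refine (mul_le_mul_of_nonneg_right (card_le_sum_norm K z hz0) (Nat.cast_nonneg M)).trans ?_
      rw [Finset.sum_mul, Finset.mul_sum]
      refine Finset.sum_le_sum fun φ _ => ?_
      have c1 := congrArg (fun y => ‖E φ y‖) a5
      simp only [map_mul (E φ) (M : 𝓞 K), map_natCast, norm_mul, Complex.norm_natCast] at c1
      have c4 : 0 ≤ a φ := by positivity
      have c5 : ‖φ (z : K)‖ = ‖E φ z‖ := rfl
      rw [mul_comm, c5, ← c1, map_mul, norm_mul, b1, Complex.norm_real, Real.norm_of_nonneg c4]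
      exact mul_le_mul_of_nonneg_right (a4 φ) c4
    have b3 : ∑ φ, a φ ≤ ∑ η : AddChar (ZMod t) ℂ, ‖FZ η f' 1‖ ^ 2 := by
      rw [ha]
      refine (Finset.sum_image (s := univ) (g := fun φ => (E φ).toMonoidHom.compAddChar ψ)
        (f := fun η => ‖FZ η f' 1‖ ^ 2) hinj.injOn).symm.le.trans ?_
      exact Finset.sum_le_sum_of_subset_of_nonneg (Finset.subset_univ _) fun _ _ _ => by positivity
    rw [parseval_all, ZMod.card] at b3
    rw [AlgHom.card, IsCyclotomicExtension.Rat.finrank t K] at b2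
    have b4 := supp_le t _ hPt f' a1 a6
    have b5 : (0 : ℝ) ≤ ((∏ p ∈ S, p : ℕ) : ℝ) := Nat.cast_nonneg _
    have b6 : (t.totient : ℝ) * M * ((∏ p ∈ S, p : ℕ) : ℝ) ≤ 4 ^ #S * (t : ℝ) ^ 2 := by
      calc (t.totient : ℝ) * M * ((∏ p ∈ S, p : ℕ) : ℝ)
          ≤ 4 ^ #S * (t * ∑ g, (f' g : ℝ) ^ 2) * ((∏ p ∈ S, p : ℕ) : ℝ) := by
            refine mul_le_mul_of_nonneg_right (b2.trans ?_) b5
            gcongr
        _ = 4 ^ #S * (t * (((∏ p ∈ S, p : ℕ) : ℝ) * ∑ g, (f' g : ℝ) ^ 2)) := by ring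
        _ ≤ 4 ^ #S * (t * t) := by gcongr
        _ = _ := by ring
    exact_mod_cast b6
  rcases one_side ψ X Y h1 h2 with h | h
  · exact key X hX h
  · exact key Y hY h

/-- Field descent at several primes at once. -/
theorem criterion_multi {u m d : ℕ} (hu : Odd u) (h : u = m * d) (S : Finset ℕ)
    (hS : ∀ p ∈ S, p.Prime ∧ p ∣ u ∧ ¬ p ^ 2 ∣ u ∧ ∀ r : ℕ, r.Prime → r ∣ u → ¬ p ∣ r - 1)
    (hW : ∀ q : ℕ, q.Prime → q ∣ m → ∀ p ∈ S, q ≠ p → ¬ q ^ (p - 1) ≡ 1 [MOD p ^ 2])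
    [NeZero (u ^ 2)]
    (φ : QuaternionGroup (u ^ 2) → ℤ) (hφ : ∀ g, φ g = 1 ∨ φ g = -1)
    (hH : ∀ g g', ∑ k, φ (g * k) * φ (g' * k) = if g = g' then 4 * ((u ^ 2 : ℕ) : ℤ) else 0) :
    (∏ p ∈ S, p) * u.totient ≤ 4 ^ #S * d ^ 2 * u := by
  have hodd : Odd (u ^ 2) := hu.pow
  obtain ⟨X, Y, h1, h2, h3, h4⟩ := reduce (ZMod.chineseRemainder (Nat.coprime_two_left.mpr hodd))
    (ZMod.natCast_eq_one_iff_odd.mpr hodd) (ZMod.natCast_self _) φ hφ hH
  have : IsCyclotomicExtension {u ^ 2} ℚ (CyclotomicField (u ^ 2) ℚ) :=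
    CyclotomicField.isCyclotomicExtension (u ^ 2) ℚ
  have key := multi_aux (u ^ 2) S (M := m ^ 2) (pow_dvd_pow_of_dvd (Dvd.intro d h.symm) 2)
    (fun p hpS => by
      obtain ⟨hp, ⟨v, hv⟩, h5, hfree⟩ := hS p hpS
      have hp2 : p ≠ 2 := by
        rintro rfl
        exact (Nat.not_even_iff_odd.mpr hu) (even_iff_two_dvd.mpr ⟨v, hv⟩)
      have ht : u ^ 2 = p * v ^ 2 * p := by rw [hv]; ring
      have hv0 : ¬ p ∣ v := fun hc => h5 (by rw [hv, sq]; exact mul_dvd_mul_left p hc)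
      exact ⟨hp, hp2, p * v ^ 2, ht, dvd_mul_right _ _, fun q hq hqm hqp =>
        exists_frob (A := 2) (t₀ := v ^ 2) hp hp2 ht (dvd_mul_right p _) (by rw [hv]; ring)
          (fun hc => hv0 (hp.dvd_of_dvd_pow hc))
          (fun r hr hd => hfree r hr (hr.dvd_of_dvd_pow hd)) hq hqp
          (hW q hq (hq.dvd_of_dvd_pow hqm) p hpS hqp)⟩)
    X Y h1 h2 h3 h4 (CyclotomicField (u ^ 2) ℚ)
  have hu0 : 0 < u := hu.pos
  have h5 := Nat.totient_gcd_mul_totient_mul u u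
  rw [Nat.gcd_self, mul_assoc, ← sq] at h5
  rw [Nat.eq_of_mul_eq_mul_left (Nat.totient_pos.mpr hu0) h5] at key
  have hm0 : 0 < m := Nat.pos_of_mul_pos_right (h ▸ hu0)
  refine Nat.le_of_mul_le_mul_right ?_ (Nat.mul_pos hu0 (pow_pos hm0 2))
  calc (∏ p ∈ S, p) * u.totient * (u * m ^ 2) = u.totient * u * m ^ 2 * ∏ p ∈ S, p := by ring
    _ ≤ 4 ^ #S * (u ^ 2) ^ 2 := key
    _ = 4 ^ #S * (u * u * (m * d) ^ 2) := by rw [← h]; ring
    _ = _ := by ring

end Pool.Agent.Lib.MP_d3ed34_co.Dens
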