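import Pool.Agent.Lib.MP_d3ed34_co.Dens.Sieve

set_option autoImplicit false

namespace Pool.Agent.Lib.MP_d3ed34_co.Dens

open Finset

theorem seq_card (κ : ℕ → ℤ) (hκ : Function.Injective κ) (U : Finset ℕ) (W : ℕ → Finset ℕ → ℝ)
    (hW : ∀ q V, 0 ≤ W q V) (k : ℕ) {A : ℝ} (hA0 : 0 ≤ A)
    (hA : ∀ V ⊆ U, #V ≤ k → ∑ q ∈ U, W q V ≤ A) (j : ℕ) (hj : j ≤ k) :
    ∑ V ∈ powersetCard j U, ∏ q ∈ V, W q (V.filter fun x => κ x < κ q) ≤ A ^ j := by
  induction j with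
  | zero => simp
  | succ j ih =>
    set F : Finset ℕ → ℝ := fun V => ∏ q ∈ V, W q (V.filter fun x => κ x < κ q) with hF
    have hF0 : ∀ V, 0 ≤ F V := fun V => Finset.prod_nonneg fun q _ => hW _ _
    have h1 : ∀ V ∈ powersetCard (j + 1) U, ∃ m ∈ V, ∀ x ∈ V, κ x ≤ κ m := fun V hV =>
      Finset.exists_max_image V κ (Finset.card_pos.mp (by
        rw [(Finset.mem_powersetCard.mp hV).2]; omega))
    choose! m hm1 hm2 using h1
    have h2 : ∀ V ∈ powersetCard (j + 1) U, F V = F (V.erase (m V)) * W (m V) (V.erase (m V)) := by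
      intro V hV
      simp only [hF]
      rw [← Finset.prod_erase_mul V _ (hm1 V hV)]
      congr 1
      · refine Finset.prod_congr rfl fun q hq => ?_
        congr 1
        ext x
        simp only [Finset.mem_filter, Finset.mem_erase]
        refine ⟨fun h => ⟨⟨?_, h.1⟩, h.2⟩, fun h => ⟨h.1.2, h.2⟩⟩
        rintro rfl
        exact absurd h.2 (not_lt.mpr (hm2 V hV q (Finset.mem_of_mem_erase hq)))
      · congr 1
        ext x
        simp only [Finset.mem_filter, Finset.mem_erase]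
        refine ⟨fun h => ⟨?_, h.1⟩, fun h => ⟨h.2, (hm2 V hV x h.2).lt_of_ne fun hc => h.1 (hκ hc)⟩⟩
        rintro rfl
        exact lt_irrefl _ h.2
    rw [Finset.sum_congr rfl h2]
    have h3 : ∑ V ∈ powersetCard (j + 1) U, F (V.erase (m V)) * W (m V) (V.erase (m V))
        ≤ ∑ x ∈ powersetCard j U ×ˢ U, F x.1 * W x.2 x.1 := by
      rw [← Finset.sum_image (g := fun V => (V.erase (m V), m V))
        (f := fun x : Finset ℕ × ℕ => F x.1 * W x.2 x.1)]
      · refine Finset.sum_le_sum_of_subset_of_nonneg (fun x hx => ?_)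
          fun x _ _ => mul_nonneg (hF0 _) (hW _ _)
        obtain ⟨V, hV, rfl⟩ := Finset.mem_image.mp hx
        obtain ⟨a1, a2⟩ := Finset.mem_powersetCard.mp hV
        refine Finset.mem_product.mpr ⟨Finset.mem_powersetCard.mpr
          ⟨(Finset.erase_subset _ _).trans a1, ?_⟩, a1 (hm1 V hV)⟩
        rw [Finset.card_erase_of_mem (hm1 V hV), a2]
        rfl
      · intro V hV V' hV' h
        have a1 : V.erase (m V) = V'.erase (m V') := congrArg Prod.fst h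
        have a2 : m V = m V' := congrArg Prod.snd h
        rw [← Finset.insert_erase (hm1 V hV), ← Finset.insert_erase (hm1 V' hV'), a1, a2]
    refine h3.trans ?_
    rw [Finset.sum_product, pow_succ]
    refine le_trans ?_ (mul_le_mul_of_nonneg_right (ih (by omega)) hA0)
    rw [Finset.sum_mul]
    refine Finset.sum_le_sum fun V hV => ?_
    obtain ⟨a1, a2⟩ := Finset.mem_powersetCard.mp hV
    simp only
    rw [← Finset.mul_sum]
    exact mul_le_mul_of_nonneg_left (hA V a1 (by omega)) (hF0 V)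

theorem seq_bound (κ : ℕ → ℤ) (hκ : Function.Injective κ) (U : Finset ℕ) (W : ℕ → Finset ℕ → ℝ)
    (hW : ∀ q V, 0 ≤ W q V) (k : ℕ) {A : ℝ} (hA1 : 1 ≤ A)
    (hA : ∀ V ⊆ U, #V ≤ k → ∑ q ∈ U, W q V ≤ A) :
    ∑ V ∈ U.powerset.filter (fun V => #V ≤ k), ∏ q ∈ V, W q (V.filter fun x => κ x < κ q)
      ≤ (2 * A) ^ k := by
  rw [← Finset.sum_fiberwise_of_maps_to (t := range (k + 1)) (g := fun V => #V)
    fun V hV => Finset.mem_range.mpr (Nat.lt_succ_of_le (Finset.mem_filter.mp hV).2)]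
  refine (Finset.sum_le_sum (g := fun _ => A ^ k) fun j hj => ?_).trans ?_
  · have hj' := Nat.le_of_lt_succ (Finset.mem_range.mp hj)
    refine le_trans ?_ ((seq_card κ hκ U W hW k (by linarith) hA j hj').trans
      (pow_le_pow_right₀ hA1 hj'))
    refine Finset.sum_le_sum_of_subset_of_nonneg (fun V hV => ?_)
      fun V _ _ => Finset.prod_nonneg fun q _ => hW _ _
    obtain ⟨a1, a2⟩ := Finset.mem_filter.mp hV
    exact Finset.mem_powersetCard.mpr
      ⟨Finset.mem_powerset.mp (Finset.mem_filter.mp a1).1, a2⟩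
  · rw [Finset.sum_const, Finset.card_range, nsmul_eq_mul, mul_pow]
    have : ((k + 1 : ℕ) : ℝ) ≤ 2 ^ k := by exact_mod_cast Nat.lt_two_pow_self
    gcongr

theorem count_dvd {ι : Type*} (I : Finset ι) (x : ι → ℕ) (w : ι → ℝ) (hw : ∀ i, 0 ≤ w i) (N : ℕ)
    {Θ : ℝ} (hΘ : 0 < Θ) (A : Finset ℕ)
    (hA : ∀ u ∈ A, u ≠ 0 ∧ u ≤ N ∧ ∃ i ∈ I, x i ∣ u ∧ Θ ≤ w i) :
    (#A : ℝ) ≤ N / Θ * ∑ i ∈ I, w i / x i := by
  classical
  have h1 : A ⊆ (I.filter fun i => Θ ≤ w i).biUnion fun i => (Ioc 0 N).filter (x i ∣ ·) := by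
    intro u hu
    obtain ⟨a1, a2, i, a3, a4, a5⟩ := hA u hu
    exact Finset.mem_biUnion.mpr ⟨i, Finset.mem_filter.mpr ⟨a3, a5⟩,
      Finset.mem_filter.mpr ⟨Finset.mem_Ioc.mpr ⟨Nat.pos_of_ne_zero a1, a2⟩, a4⟩⟩
  have h2 := (Finset.card_le_card h1).trans Finset.card_biUnion_le
  have h3 : (#A : ℝ) ≤ ∑ i ∈ I.filter (fun i => Θ ≤ w i), ((N / x i : ℕ) : ℝ) := by
    simp only [Nat.Ioc_filter_dvd_card_eq_div] at h2
    exact_mod_cast h2
  refine h3.trans ?_
  rw [Finset.mul_sum]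
  refine le_trans (Finset.sum_le_sum fun i hi => ?_)
    (Finset.sum_le_sum_of_subset_of_nonneg (Finset.filter_subset _ _)
      fun i _ _ => by have := hw i; positivity)
  refine Nat.cast_div_le.trans ?_
  have a1 := (Finset.mem_filter.mp hi).2
  calc (N : ℝ) / x i = N / Θ * (Θ / x i) := by field_simp
    _ ≤ _ := by gcongr

theorem tail_sum (P L U : ℕ) (hP : 0 < P) (hL : 1 ≤ L) (A : Finset ℕ)
    (hA : ∀ n ∈ A, L ≤ n ∧ n ≤ U)
    (hm : ∀ n ∈ A, ∀ n' ∈ A, n ≡ n' [MOD P] → n ≡ n' [MOD P ^ 2]) :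
    ∑ n ∈ A, (n : ℝ)⁻¹ ≤ P * ((L : ℝ)⁻¹ + (1 + Real.log U) / P ^ 2) := by
  set g : ℕ → ℝ := fun j => if j = 0 then (L : ℝ)⁻¹ else (j : ℝ)⁻¹ / P ^ 2 with hg
  have hg0 : ∀ j, 0 ≤ g j := fun j => by
    simp only [hg]
    split_ifs <;> positivity
  have h1 : ∑ n ∈ A, (n : ℝ)⁻¹ ≤ ∑ n ∈ A, g (n % P, n / P ^ 2).2 := by
    refine Finset.sum_le_sum fun n hn => ?_
    simp only [hg]
    split_ifs with h
    · exact inv_anti₀ (by exact_mod_cast hL) (by exact_mod_cast (hA n hn).1)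
    · rw [div_eq_mul_inv, ← mul_inv]
      refine inv_anti₀ (by have := Nat.pos_of_ne_zero h; positivity) ?_
      exact_mod_cast Nat.div_mul_le_self n (P ^ 2)
  have h2 : ∑ n ∈ A, g (n % P, n / P ^ 2).2 ≤ ∑ x ∈ range P ×ˢ range (U + 1), g x.2 := by
    rw [← Finset.sum_image (g := fun n => (n % P, n / P ^ 2)) (f := fun x : ℕ × ℕ => g x.2)]
    · refine Finset.sum_le_sum_of_subset_of_nonneg (fun x hx => ?_) fun x _ _ => hg0 _
      obtain ⟨n, hn, rfl⟩ := Finset.mem_image.mp hx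
      refine Finset.mem_product.mpr ⟨Finset.mem_range.mpr (Nat.mod_lt _ hP),
        Finset.mem_range.mpr ?_⟩
      have := Nat.div_le_self n (P ^ 2)
      have := (hA n hn).2
      simp only
      omega
    · intro n hn n' hn' h
      have a1 : n % P ^ 2 = n' % P ^ 2 := hm n hn n' hn' (congrArg Prod.fst h)
      have a2 : n / P ^ 2 = n' / P ^ 2 := congrArg Prod.snd h
      rw [← Nat.mod_add_div n (P ^ 2), ← Nat.mod_add_div n' (P ^ 2), a1, a2]
  refine (h1.trans h2).trans ?_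
  rw [Finset.sum_product]
  simp only [Finset.sum_const, Finset.card_range, nsmul_eq_mul]
  refine mul_le_mul_of_nonneg_left ?_ (Nat.cast_nonneg P)
  rw [Finset.range_eq_Ico, Finset.sum_eq_sum_Ico_succ_bot (Nat.add_one_pos U),
    Finset.Ico_add_one_right_eq_Icc]
  refine add_le_add (by simp [hg]) ?_
  have h3 : ∑ j ∈ Icc (0 + 1) U, g j = ∑ j ∈ Icc 1 U, (j : ℝ)⁻¹ / P ^ 2 :=
    Finset.sum_congr rfl fun j hj => by
      have := (Finset.mem_Icc.mp hj).1
      simp only [hg]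
      rw [if_neg (by omega)]
  rw [h3, ← Finset.sum_div]
  gcongr
  exact sum_inv_le U

theorem multi_modEq (T : Finset ℕ) (hT : ∀ p ∈ T, p.Prime) {n n' : ℕ}
    (h : ∀ p ∈ T, n ^ (p - 1) ≡ 1 [MOD p ^ 2]) (h' : ∀ p ∈ T, n' ^ (p - 1) ≡ 1 [MOD p ^ 2])
    (hn : n ≡ n' [MOD ∏ p ∈ T, p]) : n ≡ n' [MOD (∏ p ∈ T, p) ^ 2] := by
  induction T using Finset.induction_on with
  | empty => simpa using Nat.modEq_one
  | insert p T hpT ih =>
    rw [Finset.prod_insert hpT] at hn ⊢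
    have hp := hT p (Finset.mem_insert_self _ _)
    rw [mul_pow]
    refine (Nat.modEq_and_modEq_iff_modEq_mul (Nat.Coprime.pow 2 2 ?_)).mp
      ⟨sol_modEq hp.pos (h p (Finset.mem_insert_self _ _)) (h' p (Finset.mem_insert_self _ _))
        (hn.of_mul_right _), ih (fun r hr => hT r (Finset.mem_insert_of_mem hr))
        (fun r hr => h r (Finset.mem_insert_of_mem hr))
        (fun r hr => h' r (Finset.mem_insert_of_mem hr)) (hn.of_mul_left _)⟩
    refine Nat.Coprime.prod_right fun r hr => ?_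
    refine (Nat.coprime_primes hp (hT r (Finset.mem_insert_of_mem hr))).mpr ?_
    rintro rfl
    exact hpT hr

theorem sol_card (p U : ℕ) (hp : 0 < p) : #(sol p 1 U) ≤ p * (U / p ^ 2 + 1) := by
  rw [← Finset.card_range p, ← Finset.card_range (U / _ + 1), ← Finset.card_product,
    Finset.card_range]
  refine Finset.card_le_card_of_injOn (fun n => (n % p, n / p ^ 2)) (fun n hn => ?_)
    fun n hn n' hn' h => ?_
  · have hn' := Finset.mem_Icc.mp (Finset.mem_filter.mp (Finset.mem_coe.mp hn)).1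
    exact Finset.mem_coe.mpr (Finset.mem_product.mpr ⟨Finset.mem_range.mpr (Nat.mod_lt _ hp),
      Finset.mem_range.mpr (Nat.lt_succ_of_le (Nat.div_le_div_right hn'.2))⟩)
  · have a1 : n % p ^ 2 = n' % p ^ 2 :=
      sol_modEq hp (Finset.mem_filter.mp (Finset.mem_coe.mp hn)).2
        (Finset.mem_filter.mp (Finset.mem_coe.mp hn')).2 (congrArg Prod.fst h)
    have a2 : n / p ^ 2 = n' / p ^ 2 := congrArg Prod.snd h
    rw [← Nat.mod_add_div n (p ^ 2), ← Nat.mod_add_div n' (p ^ 2), a1, a2]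

theorem tuple_card (A B : Finset ℕ) (j : ℕ) (hA : ∀ q ∈ A, q.Prime)
    (hB : ∀ f : Fin j → ℕ, (∀ i, f i ∈ A) → ∏ i, f i ∈ B) : #A ^ j ≤ j ^ j * #B := by
  classical
  have h1 : #(Fintype.piFinset fun _ : Fin j => A) = #A ^ j := by simp
  rw [← h1]
  refine Finset.card_le_mul_card_image_of_maps_to (f := fun f => ∏ i, f i)
    (fun f hf => hB f (Fintype.mem_piFinset.mp hf)) _ fun b _ => ?_
  rcases Finset.eq_empty_or_nonempty
    ((Fintype.piFinset fun _ : Fin j => A).filter fun f => ∏ i, f i = b) with h | ⟨f₀, h⟩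
  · rw [h]; simp
  obtain ⟨a1, a2⟩ := Finset.mem_filter.mp h
  have h2 : #(Fintype.piFinset fun _ : Fin j => univ.image f₀) ≤ j ^ j := by
    rw [Fintype.card_piFinset, Finset.prod_const, Finset.card_univ, Fintype.card_fin]
    exact Nat.pow_le_pow_left (Finset.card_image_le.trans (by simp)) j
  refine le_trans (Finset.card_le_card fun f hf => ?_) h2
  obtain ⟨b1, b2⟩ := Finset.mem_filter.mp hf
  refine Fintype.mem_piFinset.mpr fun i => ?_
  have hi := hA _ (Fintype.mem_piFinset.mp b1 i)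
  have hd : f i ∣ ∏ i, f₀ i := by
    rw [a2, ← b2]
    exact Finset.dvd_prod_of_mem _ (Finset.mem_univ i)
  obtain ⟨l, -, hl⟩ := (Prime.dvd_finsetProd_iff hi.prime _).mp hd
  exact Finset.mem_image.mpr ⟨l, Finset.mem_univ _,
    ((Nat.prime_dvd_prime_iff_eq hi (hA _ (Fintype.mem_piFinset.mp a1 l))).mp hl).symm⟩

theorem single_card {p x L : ℕ} (hp : 2 ≤ p) (hL : p < 2 ^ L) (hx : 2 ≤ x) (hxp : x ≤ p ^ 4)
    (A : Finset ℕ) (hA : ∀ q ∈ A, q.Prime ∧ q ≤ x ∧ q ^ (p - 1) ≡ 1 [MOD p ^ 2]) :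
    #A ^ 4 ≤ (4 * L) ^ 4 * x ^ 3 := by
  have hex : ∃ j, p ^ 2 ≤ x ^ j := ⟨2 * L, by
    rw [mul_comm, pow_mul]
    exact Nat.pow_le_pow_left (hL.le.trans (Nat.pow_le_pow_left hx L)) 2⟩
  have h1 := Nat.find_spec hex
  have h2 : Nat.find hex ≤ 2 * L := Nat.find_min' hex (by
    rw [mul_comm, pow_mul]
    exact Nat.pow_le_pow_left (hL.le.trans (Nat.pow_le_pow_left hx L)) 2)
  have h3 := fun k => Nat.find_min hex (m := k)
  set j := Nat.find hex
  have hj0 : j ≠ 0 := by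
    intro h
    rw [h, pow_zero] at h1
    nlinarith
  have h4 : x ^ j ≤ p ^ 4 := by
    obtain ⟨i, hi⟩ := Nat.exists_eq_succ_of_ne_zero hj0
    rcases Nat.eq_zero_or_pos i with rfl | h
    · rw [hi]; simpa using hxp
    · have a1 := not_le.mp (h3 i (by omega))
      have a2 := not_le.mp (h3 1 (by omega))
      rw [pow_one] at a2
      rw [hi, pow_succ, show p ^ 4 = p ^ 2 * p ^ 2 by ring]
      exact Nat.mul_le_mul a1.le a2.le
  have h5 := tuple_card A (sol p 1 (x ^ j)) j (fun q hq => (hA q hq).1) fun f hf => by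
    refine Finset.mem_filter.mpr ⟨Finset.mem_Icc.mpr ⟨Finset.prod_pos fun i _ => (hA _ (hf i)).1.pos,
      ?_⟩, ?_⟩
    · simpa using Finset.prod_le_pow_card univ f x fun i _ => (hA _ (hf i)).2.1
    · rw [← Finset.prod_pow]
      simpa using Nat.ModEq.prod (s := univ) (g := fun _ => 1) fun i _ => (hA _ (hf i)).2.2
  have h6 : p * #(sol p 1 (x ^ j)) ≤ 2 * x ^ j := by
    have a1 := sol_card p (x ^ j) (by omega)
    have a2 := Nat.div_mul_le_self (x ^ j) (p ^ 2)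
    calc p * #(sol p 1 (x ^ j)) ≤ p * (p * (x ^ j / p ^ 2 + 1)) := by gcongr
      _ = x ^ j / p ^ 2 * p ^ 2 + p ^ 2 := by ring
      _ ≤ _ := by omega
  have h7 : #(sol p 1 (x ^ j)) ^ 4 ≤ 16 * (x ^ j) ^ 3 := by
    refine Nat.le_of_mul_le_mul_left ?_ (pow_pos (by omega : 0 < x) j)
    calc x ^ j * #(sol p 1 (x ^ j)) ^ 4 ≤ p ^ 4 * #(sol p 1 (x ^ j)) ^ 4 := by gcongr
      _ = (p * #(sol p 1 (x ^ j))) ^ 4 := by ring
      _ ≤ (2 * x ^ j) ^ 4 := by gcongr
      _ = _ := by ring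
  refine le_of_pow_le_pow_left₀ hj0 (Nat.zero_le _) ?_
  calc (#A ^ 4) ^ j = (#A ^ j) ^ 4 := by ring
    _ ≤ (j ^ j * #(sol p 1 (x ^ j))) ^ 4 := by gcongr
    _ = (j ^ 4) ^ j * #(sol p 1 (x ^ j)) ^ 4 := by ring
    _ ≤ ((2 * L) ^ 4) ^ j * (16 ^ j * (x ^ j) ^ 3) := by
      gcongr
      exact h7.trans (Nat.mul_le_mul_right _ (Nat.le_self_pow hj0 16))
    _ = _ := by
      rw [← pow_mul x j 3, mul_comm j 3, pow_mul x, ← mul_pow, ← mul_pow]
      congr 1
      ring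

end Pool.Agent.Lib.MP_d3ed34_co.Dens
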