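import Mathlib

set_option autoImplicit false

namespace Pool.Agent.Lib.MP_d3ed34_co.Dens

open Finset

/-- `q` is a Wieferich base for `p`. -/
abbrev Wf (q p : ℕ) : Prop := q ^ (p - 1) ≡ 1 [MOD p ^ 2]

/-- Weight of a prime tied to a larger prime of `V`. -/
def Sdec (q : ℕ) (V : Finset ℕ) : ℕ := if ∃ r ∈ V, q < r ∧ (q ∣ r - 1 ∨ Wf q r) then q else 1

/-- The smaller primes of `V` for which `q` is a Wieferich base. -/
def Tg (q : ℕ) (V : Finset ℕ) : Finset ℕ := V.filter fun p => p < q ∧ Wf q p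

/-- Weight of a prime tied to smaller primes of `V`. -/
def Sinc (q : ℕ) (V : Finset ℕ) : ℕ := min ((∏ p ∈ Tg q V, p) ^ 4) q

theorem struct_pow {u y Z : ℕ} (hu : u ≠ 0) (hy : 16 ≤ y) (hZ : u ≤ Z * u.totient)
    (hbig : Z ^ 28 < u)
    (hE : ∀ (m d : ℕ) (S : Finset ℕ), u = m * d →
      (∀ p ∈ S, p.Prime ∧ p ∣ u ∧ ¬ p ^ 2 ∣ u ∧ ∀ r : ℕ, r.Prime → r ∣ u → ¬ p ∣ r - 1) →
      (∀ q : ℕ, q.Prime → q ∣ m → ∀ p ∈ S, q ≠ p → ¬ Wf q p) →
      (∏ p ∈ S, p) * u.totient ≤ 4 ^ #S * d ^ 2 * u) :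
    (∃ b, Z ≤ b ∧ b ^ 2 ∣ u) ∨
    (∃ A : Finset ℕ, (∀ p ∈ A, p.Prime ∧ p ≤ y) ∧ ∏ p ∈ A, p ∣ u ∧ Z ≤ ∏ p ∈ A, p) ∨
    ∃ V : Finset ℕ, (∀ p ∈ V, p.Prime ∧ y < p) ∧ ∏ p ∈ V, p ∣ u ∧
      (Z ≤ ∏ q ∈ V, Sdec q V ∨ Z ≤ ∏ q ∈ V, Sinc q V) := by
  classical
  obtain ⟨a, b, hab, hsq⟩ := Nat.sq_mul_squarefree u
  have hb0 : b ≠ 0 := by
    rintro rfl
    simp at hab
    exact hu hab.symm
  have ha0 : a ≠ 0 := hsq.ne_zero
  set A := a.primeFactors.filter (· ≤ y) with hA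
  set V := a.primeFactors.filter (fun p => ¬ p ≤ y) with hV
  have hAV : (∏ p ∈ A, p) * ∏ p ∈ V, p = a := by
    rw [hA, hV, Finset.prod_filter_mul_prod_filter_not, Nat.prod_primeFactors_of_squarefree hsq]
  have hVp : ∀ p ∈ V, p.Prime ∧ y < p := fun p hp =>
    ⟨Nat.prime_of_mem_primeFactors (Finset.mem_filter.mp hp).1,
      not_le.mp (Finset.mem_filter.mp hp).2⟩
  have hau : a ∣ u := Dvd.intro_left _ hab
  by_contra hcon
  push Not at hcon
  obtain ⟨c1, c2, c3⟩ := hcon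
  have hb : b ≤ Z := by
    by_contra hc
    exact c1 b (by omega) (Dvd.intro _ hab)
  have hA1 : ∏ p ∈ A, p ≤ Z := (c2 A (fun p hp =>
    ⟨Nat.prime_of_mem_primeFactors (Finset.mem_filter.mp hp).1, (Finset.mem_filter.mp hp).2⟩)
    ((Dvd.intro _ hAV).trans hau)).le
  obtain ⟨c4, c5⟩ := c3 V hVp ((Dvd.intro_left _ hAV).trans hau)
  set D := V.filter (fun q => ∃ r ∈ V, q < r ∧ (q ∣ r - 1 ∨ Wf q r)) with hD
  have hD1 : ∏ p ∈ D, p ≤ Z := by
    rw [hD, Finset.prod_filter]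
    exact c4.le
  set Sat := V.filter (fun q => q ≤ (∏ p ∈ Tg q V, p) ^ 4) with hSat
  set Uns := V.filter (fun q => ¬ q ≤ (∏ p ∈ Tg q V, p) ^ 4) with hUns
  set s := ∏ p ∈ Sat, p with hs
  set w := ∏ q ∈ Uns, ∏ p ∈ Tg q V, p with hw
  have hpos : ∀ T : Finset ℕ, T ⊆ V → 0 < ∏ p ∈ T, p := fun T hT =>
    Finset.prod_pos fun p hp => (hVp p (hT hp)).1.pos
  have hs0 : 0 < s := hpos _ (Finset.filter_subset _ _)
  have hw0 : 0 < w := Finset.prod_pos fun q _ => hpos _ (Finset.filter_subset _ _)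
  have hsw : s * w ^ 4 ≤ Z := by
    refine le_trans (le_of_eq ?_) c5.le
    rw [← Finset.prod_filter_mul_prod_filter_not V (fun q => q ≤ (∏ p ∈ Tg q V, p) ^ 4), hw,
      ← Finset.prod_pow]
    congr 1
    · exact Finset.prod_congr rfl fun q hq => (min_eq_right (Finset.mem_filter.mp hq).2).symm
    · exact Finset.prod_congr rfl fun q hq =>
        (min_eq_left (not_le.mp (Finset.mem_filter.mp hq).2).le).symm
  set β := b * ∏ r ∈ b.primeFactors, (r - 1) with hβ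
  have hβ0 : 0 < β := Nat.mul_pos (Nat.pos_of_ne_zero hb0) (Finset.prod_pos fun r hr => by
    have := (Nat.prime_of_mem_primeFactors hr).two_le
    omega)
  have hβ1 : β ≤ Z ^ 2 := by
    rw [sq]
    refine Nat.mul_le_mul hb (le_trans ?_ hb)
    exact (Finset.prod_le_prod' fun r _ => Nat.sub_le r 1).trans
      (Nat.le_of_dvd (Nat.pos_of_ne_zero hb0) (Nat.prod_primeFactors_dvd b))
  set R := V.filter (fun p => p ∉ D ∧ ¬ p ∣ β ∧ ¬ p ∣ w) with hR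
  have hRV : R ⊆ V := Finset.filter_subset _ _
  have hV1 : ∏ p ∈ V, p ≤ (∏ p ∈ R, p) * (∏ p ∈ D, p) * β * w := by
    refine Nat.le_of_dvd (by
      have := hpos R hRV
      have := hpos D (Finset.filter_subset _ _)
      positivity) (Finset.prod_primes_dvd _ (fun p hp => (hVp p hp).1.prime) fun p hp => ?_)
    by_cases h1 : p ∈ D
    · exact (((Finset.dvd_prod_of_mem _ h1).mul_left _).mul_right _).mul_right _
    by_cases h2 : p ∣ β
    · exact (h2.mul_left _).mul_right _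
    by_cases h3 : p ∣ w
    · exact h3.mul_left _
    have : p ∈ R := Finset.mem_filter.mpr ⟨hp, h1, h2, h3⟩
    exact (((Finset.dvd_prod_of_mem _ this).mul_right _).mul_right _).mul_right _
  set V₁ := V.filter (fun q => ∃ p ∈ R, q ≠ p ∧ Wf q p) with hV₁
  set V₂ := V.filter (fun q => ¬ ∃ p ∈ R, q ≠ p ∧ Wf q p) with hV₂
  have hV12 : (∏ p ∈ V₁, p) * ∏ p ∈ V₂, p = ∏ p ∈ V, p :=
    Finset.prod_filter_mul_prod_filter_not _ _ _
  have hV2 : ∏ p ∈ V₁, p ≤ (∏ p ∈ D, p) * s := by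
    refine Nat.le_of_dvd (Nat.mul_pos (hpos D (Finset.filter_subset _ _)) hs0)
      (Finset.prod_primes_dvd _ (fun p hp => (hVp p (Finset.mem_filter.mp hp).1).1.prime)
        fun q hq => ?_)
    obtain ⟨a1, p, a2, a3, a4⟩ := Finset.mem_filter.mp hq
    rcases lt_or_gt_of_ne a3 with h | h
    · exact (Finset.dvd_prod_of_mem _
        (Finset.mem_filter.mpr ⟨a1, p, hRV a2, h, Or.inr a4⟩ : q ∈ D)).mul_right _
    · refine (Finset.dvd_prod_of_mem _ (Finset.mem_filter.mpr ⟨a1, ?_⟩ : q ∈ Sat)).mul_left _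
      by_contra hc
      have b1 : q ∈ Uns := Finset.mem_filter.mpr ⟨a1, hc⟩
      have b2 : p ∈ Tg q V := Finset.mem_filter.mpr ⟨hRV a2, h, a4⟩
      exact (Finset.mem_filter.mp a2).2.2.2
        ((Finset.dvd_prod_of_mem (fun p => p) b2).trans
          (Finset.dvd_prod_of_mem (fun q => ∏ p ∈ Tg q V, p) b1))
  have key := hE (∏ p ∈ V₂, p) (b ^ 2 * (∏ p ∈ A, p) * ∏ p ∈ V₁, p) R
    (by rw [← hab, ← hAV, ← hV12]; ring) (fun p hp => by
      obtain ⟨a1, a2, a3, -⟩ := Finset.mem_filter.mp hp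
      obtain ⟨a4, a5⟩ := hVp p a1
      have a6 : ¬ p ∣ b := fun h => a3 (h.mul_right _)
      refine ⟨a4, (Nat.dvd_of_mem_primeFactors (Finset.mem_filter.mp a1).1).trans hau,
        fun h => ?_, fun r hr hru hd => ?_⟩
      · rw [← hab] at h
        have b1 : p ^ 2 ∣ a :=
          (Nat.Coprime.pow 2 2 ((Nat.Prime.coprime_iff_not_dvd a4).mpr a6)).dvd_of_dvd_mul_left h
        rw [sq] at b1
        exact a4.ne_one (Nat.isUnit_iff.mp (hsq p b1))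
      · have b0 := hr.two_le
        have b1 : p ≤ r - 1 := Nat.le_of_dvd (by omega) hd
        rw [← hab] at hru
        rcases (Nat.Prime.dvd_mul hr).mp hru with h | h
        · exact a3 ((hd.trans (Finset.dvd_prod_of_mem (fun r => r - 1)
            (Nat.mem_primeFactors.mpr ⟨hr, hr.dvd_of_dvd_pow h, hb0⟩))).mul_left _)
        · refine a2 (Finset.mem_filter.mpr ⟨a1, r, Finset.mem_filter.mpr
            ⟨Nat.mem_primeFactors.mpr ⟨hr, h, ha0⟩, by omega⟩, by omega, Or.inl hd⟩))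
    (fun q hq hd p hp hqp hW => by
      obtain ⟨r, hr, h⟩ := (Prime.dvd_finsetProd_iff hq.prime _).mp hd
      obtain ⟨a1, a2⟩ := Finset.mem_filter.mp hr
      have : q = r := (Nat.prime_dvd_prime_iff_eq hq (hVp r a1).1).mp h
      subst this
      exact a2 ⟨p, hp, hqp, hW⟩)
  set P := ∏ p ∈ R, p with hP
  set d := b ^ 2 * (∏ p ∈ A, p) * ∏ p ∈ V₁, p with hd
  have hP0 : 0 < P := hpos R hRV
  have h16 : (4 ^ #R) ^ 2 ≤ P := by
    rw [← pow_mul, mul_comm, pow_mul]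
    exact Finset.pow_card_le_prod R _ _ fun p hp => by
      have := (hVp p (hRV hp)).2
      omega
  have hd1 : d ≤ Z ^ 4 * s := by
    calc d ≤ Z ^ 2 * Z * (Z * s) :=
          Nat.mul_le_mul (Nat.mul_le_mul (Nat.pow_le_pow_left hb 2) hA1)
            (hV2.trans (Nat.mul_le_mul_right _ hD1))
      _ = _ := by ring
  have hP1 : P ≤ 4 ^ #R * d ^ 2 * Z := by
    refine Nat.le_of_mul_le_mul_right ?_ (Nat.totient_pos.mpr (Nat.pos_of_ne_zero hu))
    calc P * u.totient ≤ 4 ^ #R * d ^ 2 * u := key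
      _ ≤ 4 ^ #R * d ^ 2 * (Z * u.totient) := Nat.mul_le_mul_left _ hZ
      _ = _ := by ring
  have hP2 : P ≤ Z ^ 18 * s ^ 4 := by
    refine Nat.le_of_mul_le_mul_left ?_ hP0
    calc P * P ≤ (4 ^ #R * d ^ 2 * Z) ^ 2 := by rw [← sq]; gcongr
      _ = (4 ^ #R) ^ 2 * (d ^ 4 * Z ^ 2) := by ring
      _ ≤ P * ((Z ^ 4 * s) ^ 4 * Z ^ 2) := by gcongr
      _ = _ := by ring
  have h4 : s ^ 4 * w ≤ Z ^ 4 := by
    calc s ^ 4 * w ≤ s ^ 4 * w ^ 16 := Nat.mul_le_mul_left _ (Nat.le_self_pow (by norm_num) w)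
      _ = (s * w ^ 4) ^ 4 := by ring
      _ ≤ _ := by gcongr
  have : u ≤ Z ^ 28 := by
    calc u = b ^ 2 * ((∏ p ∈ A, p) * ∏ p ∈ V, p) := by rw [hAV, hab]
      _ ≤ Z ^ 2 * (Z * (Z ^ 18 * s ^ 4 * Z * Z ^ 2 * w)) := by
        refine Nat.mul_le_mul (Nat.pow_le_pow_left hb 2) (Nat.mul_le_mul hA1 (hV1.trans ?_))
        gcongr
      _ = Z ^ 24 * (s ^ 4 * w) := by ring
      _ ≤ Z ^ 24 * Z ^ 4 := by gcongr
      _ = _ := by ring
  omega

end Pool.Agent.Lib.MP_d3ed34_co.Dens
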