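import Pool.Agent.Lib.MP_d3ed34_co.Pow.Seq
import Pool.Agent.Lib.MP_d3ed34_co.Pow.Struct

set_option autoImplicit false

namespace Pool.Agent.Lib.MP_d3ed34_co.Dens

open Finset

/-- The eighth root. -/
noncomputable def rt (n : ℕ) : ℝ := (n : ℝ) ^ (1 / 8 : ℝ)

theorem rt_nonneg (n : ℕ) : 0 ≤ rt n := by unfold rt; positivity

theorem rt_pow (n : ℕ) : rt n ^ 8 = n := by
  unfold rt
  rw [← Real.rpow_natCast, ← Real.rpow_mul (Nat.cast_nonneg n)]
  norm_num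

theorem rt_mono {a b : ℕ} (h : a ≤ b) : rt a ≤ rt b :=
  Real.rpow_le_rpow (Nat.cast_nonneg a) (by exact_mod_cast h) (by norm_num)

theorem rt_one : rt 1 = 1 := by simp [rt]

theorem one_le_rt {a : ℕ} (h : 1 ≤ a) : 1 ≤ rt a := rt_one ▸ rt_mono h

theorem rt_mul (a b : ℕ) : rt (a * b) = rt a * rt b := by
  unfold rt
  rw [Nat.cast_mul, Real.mul_rpow (Nat.cast_nonneg a) (Nat.cast_nonneg b)]

theorem rt_prod (V : Finset ℕ) (f : ℕ → ℕ) : rt (∏ q ∈ V, f q) = ∏ q ∈ V, rt (f q) := by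
  induction V using Finset.induction_on with
  | empty => simp [rt_one]
  | insert a s h ih => rw [Finset.prod_insert h, Finset.prod_insert h, rt_mul, ih]

theorem rt_npow (a k : ℕ) : rt (a ^ k) = rt a ^ k := by
  induction k with
  | zero => simp [rt_one]
  | succ k ih => rw [pow_succ, rt_mul, ih, pow_succ]

theorem rt_div {q : ℕ} (hq : 1 ≤ q) : rt q / q = (rt q ^ 7)⁻¹ := by
  have h := one_le_rt hq
  rw [← rt_pow q]
  field_simp

theorem single_sum {p L y N : ℕ} (hp : 2 ≤ p) (hL : p < 2 ^ L) (hN : N < 2 ^ L) (hy : 1 ≤ y)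
    (A : Finset ℕ) (hA : ∀ q ∈ A, q.Prime ∧ y < q ∧ q ≤ N ∧ q ≤ p ^ 4 ∧ Wf q p) :
    ∑ q ∈ A, rt q / q ≤ 16 * L ^ 2 / rt y := by
  have hy1 := one_le_rt hy
  rw [← Finset.sum_fiberwise_of_maps_to (t := range L) (g := fun q => Nat.log 2 q)
    fun q hq => Finset.mem_range.mpr (Nat.log_lt_of_lt_pow (hA q hq).1.ne_zero
      (lt_of_le_of_lt (hA q hq).2.2.1 hN))]
  refine (Finset.sum_le_sum (g := fun _ => 16 * L / rt y) fun i _ => ?_).trans (le_of_eq ?_)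
  swap
  · rw [Finset.sum_const, Finset.card_range, nsmul_eq_mul]
    ring
  set B := A.filter fun q => Nat.log 2 q = i with hB
  rcases B.eq_empty_or_nonempty with h | ⟨q₀, h₀⟩
  · rw [h, Finset.sum_empty]
    positivity
  have hB1 : ∀ q ∈ B, 2 ^ i ≤ q ∧ q < 2 ^ (i + 1) := fun q hq => by
    obtain ⟨a1, a2⟩ := Finset.mem_filter.mp hq
    rw [← a2]
    exact ⟨Nat.pow_log_le_self 2 (hA q a1).1.ne_zero, Nat.lt_pow_succ_log_self (by norm_num) q⟩
  set t := rt (2 ^ i) with ht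
  have ht1 : 1 ≤ t := one_le_rt Nat.one_le_two_pow
  have ht8 : t ^ 8 = 2 ^ i := by rw [ht, rt_pow]; push_cast; rfl
  have h1 := single_card (x := min (2 ^ (i + 1)) (p ^ 4)) hp hL
    (le_min (Nat.le_self_pow (by omega) 2) (hp.trans (Nat.le_self_pow (by norm_num) p)))
    (min_le_right _ _) B fun q hq => by
      obtain ⟨a1, -, -, a2, a3⟩ := hA q (Finset.mem_filter.mp hq).1
      exact ⟨a1, le_min (hB1 q hq).2.le a2, a3⟩
  have h2 : (#B : ℝ) ≤ 8 * L * t ^ 6 := by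
    refine le_of_pow_le_pow_left₀ (n := 4) (by norm_num) (by positivity) ?_
    have a1 : #B ^ 4 ≤ (4 * L) ^ 4 * (2 ^ (i + 1)) ^ 3 :=
      h1.trans (Nat.mul_le_mul_left _ (Nat.pow_le_pow_left (min_le_left _ _) 3))
    have a2 : (#B : ℝ) ^ 4 ≤ (4 * L) ^ 4 * (2 ^ (i + 1)) ^ 3 := by exact_mod_cast a1
    rw [pow_succ (2 : ℝ) i, ← ht8] at a2
    have a3 : (0 : ℝ) ≤ (L : ℝ) ^ 4 * t ^ 24 := by positivity
    nlinarith
  have h3 : rt y ≤ 2 * t := by
    refine le_of_pow_le_pow_left₀ (n := 8) (by norm_num) (by positivity) ?_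
    rw [rt_pow, mul_pow, ht8]
    have a1 : y ≤ 2 ^ 8 * 2 ^ i := by
      have := (hA q₀ (Finset.mem_filter.mp h₀).1).2.1
      have := (hB1 q₀ h₀).2
      omega
    exact_mod_cast a1
  calc ∑ q ∈ B, rt q / q ≤ ∑ _q ∈ B, (t ^ 7)⁻¹ := Finset.sum_le_sum fun q hq => by
        rw [rt_div (Nat.one_le_two_pow.trans (hB1 q hq).1)]
        have := rt_mono (hB1 q hq).1
        gcongr
    _ = #B * (t ^ 7)⁻¹ := by rw [Finset.sum_const, nsmul_eq_mul]
    _ ≤ 8 * L * t ^ 6 * (t ^ 7)⁻¹ := by gcongr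
    _ = 16 * L / (2 * t) := by field_simp; ring
    _ ≤ _ := by gcongr

theorem log_le {N L : ℕ} (hN : N < 2 ^ L) : Real.log N ≤ L := by
  rcases Nat.eq_zero_or_pos N with rfl | h
  · simp
  have h1 : (N : ℝ) ≤ 2 ^ L := by exact_mod_cast hN.le
  refine (Real.log_le_log (by exact_mod_cast h) h1).trans ?_
  rw [Real.log_pow]
  have := Real.log_two_lt_d9
  have : (0 : ℝ) ≤ L := Nat.cast_nonneg L
  nlinarith

theorem wf_sum {L y N k : ℕ} (hN : N < 2 ^ L) (hL : 1 ≤ L) (hy : L ^ 24 ≤ y) (hk : k ≤ L)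
    (V : Finset ℕ) (hV : V ⊆ (Ioc y N).filter Nat.Prime) (hVk : #V ≤ k) :
    ∑ q ∈ (Ioc y N).filter Nat.Prime,
      ∑ p ∈ V, (if q ≤ p ^ 4 ∧ Wf q p then rt q / q else 0) ≤ 16 := by
  have hy1 : 1 ≤ y := (Nat.one_le_pow _ _ hL).trans hy
  have hL3 : (L : ℝ) ^ 3 ≤ rt y := by
    refine le_of_pow_le_pow_left₀ (n := 8) (by norm_num) (rt_nonneg _) ?_
    rw [rt_pow, ← pow_mul]
    exact_mod_cast hy
  have hL1 : (1 : ℝ) ≤ L := by exact_mod_cast hL
  rw [Finset.sum_comm]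
  refine (Finset.sum_le_sum (g := fun _ => 16 * (L : ℝ) ^ 2 / L ^ 3) fun p hp => ?_).trans ?_
  · obtain ⟨a1, a2⟩ := Finset.mem_filter.mp (hV hp)
    rw [← Finset.sum_filter]
    refine (single_sum a2.two_le (lt_of_le_of_lt (Finset.mem_Ioc.mp a1).2 hN) hN hy1 _
      fun q hq => ?_).trans (by gcongr)
    obtain ⟨b1, b2, b3⟩ := Finset.mem_filter.mp hq
    obtain ⟨b4, b5⟩ := Finset.mem_filter.mp b1
    exact ⟨b5, (Finset.mem_Ioc.mp b4).1, (Finset.mem_Ioc.mp b4).2, b2, b3⟩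
  · rw [Finset.sum_const, nsmul_eq_mul]
    have : (#V : ℝ) ≤ L := by exact_mod_cast hVk.trans hk
    calc (#V : ℝ) * (16 * (L : ℝ) ^ 2 / L ^ 3) ≤ L * (16 * (L : ℝ) ^ 2 / L ^ 3) := by gcongr
      _ = 16 := by field_simp

theorem step_dec {L y N k : ℕ} (hN : N < 2 ^ L) (hL : 1 ≤ L) (hy : L ^ 24 ≤ y) (hk : k ≤ L)
    (V : Finset ℕ) (hV : V ⊆ (Ioc y N).filter Nat.Prime) (hVk : #V ≤ k) :
    ∑ q ∈ (Ioc y N).filter Nat.Prime, rt (Sdec q V) / q ≤ 3 * L + 22 := by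
  have hy1 : 1 ≤ y := (Nat.one_le_pow _ _ hL).trans hy
  have hL3 : (L : ℝ) ^ 3 ≤ rt y := by
    refine le_of_pow_le_pow_left₀ (n := 8) (by norm_num) (rt_nonneg _) ?_
    rw [rt_pow, ← pow_mul]
    exact_mod_cast hy
  have hL1 : (1 : ℝ) ≤ L := by exact_mod_cast hL
  set U := (Ioc y N).filter Nat.Prime with hU
  have h0 : ∀ q : ℕ, 0 ≤ rt q / q := fun q => div_nonneg (rt_nonneg _) (Nat.cast_nonneg _)
  have h1 : ∀ q ∈ U, rt (Sdec q V) / q ≤ (q : ℝ)⁻¹ + ∑ r ∈ V, (if q ∣ r - 1 then rt q / q else 0)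
      + ∑ p ∈ V, (if q ≤ p ^ 4 ∧ Wf q p then rt q / q else 0) := by
    intro q _
    have a0 : (0 : ℝ) ≤ (q : ℝ)⁻¹ := by positivity
    have a1 : ∀ r ∈ V, 0 ≤ (if q ∣ r - 1 then rt q / q else 0) := fun r _ => by
      split_ifs
      exacts [h0 q, le_rfl]
    have a2 : ∀ p ∈ V, 0 ≤ (if q ≤ p ^ 4 ∧ Wf q p then rt q / q else 0) := fun r _ => by
      split_ifs
      exacts [h0 q, le_rfl]
    have a3 := Finset.sum_nonneg a1
    have a4 := Finset.sum_nonneg a2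
    unfold Sdec
    split_ifs with h
    · obtain ⟨r, hr, hqr, h | h⟩ := h
      · have := Finset.single_le_sum a1 hr
        rw [if_pos h] at this
        linarith
      · have := Finset.single_le_sum a2 hr
        rw [if_pos ⟨hqr.le.trans (Nat.le_self_pow (by norm_num) r), h⟩] at this
        linarith
    · rw [rt_one, one_div]
      linarith
  refine (Finset.sum_le_sum h1).trans ?_
  rw [Finset.sum_add_distrib, Finset.sum_add_distrib]
  have h2 : ∑ q ∈ U, (q : ℝ)⁻¹ ≤ 1 + L := by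
    refine le_trans (Finset.sum_le_sum_of_subset_of_nonneg (fun q hq => ?_)
      fun _ _ _ => by positivity) ((sum_inv_le N).trans (by linarith [log_le hN]))
    obtain ⟨a1, a2⟩ := Finset.mem_filter.mp hq
    exact Finset.mem_Icc.mpr ⟨a2.one_le, (Finset.mem_Ioc.mp a1).2⟩
  have h3 : ∑ q ∈ U, ∑ r ∈ V, (if q ∣ r - 1 then rt q / q else 0) ≤ 1 := by
    rw [Finset.sum_comm]
    refine (Finset.sum_le_sum (g := fun _ => (L : ℝ) * ((L : ℝ) ^ 3)⁻¹) fun r hr => ?_).trans ?_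
    · obtain ⟨a1, a2⟩ := Finset.mem_filter.mp (hV hr)
      have a3 := a2.two_le
      have a4 := (Finset.mem_Ioc.mp a1).2
      rw [← Finset.sum_filter]
      have b1 : #(U.filter (· ∣ r - 1)) ≤ L := by
        have c1 : 2 ^ #(U.filter (· ∣ r - 1)) ≤ ∏ q ∈ U.filter (· ∣ r - 1), q :=
          Finset.pow_card_le_prod _ _ _ fun q hq =>
            (Finset.mem_filter.mp (Finset.mem_filter.mp hq).1).2.two_le
        have c2 : ∏ q ∈ U.filter (· ∣ r - 1), q ≤ r - 1 := Nat.le_of_dvd (by omega)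
          (Finset.prod_primes_dvd _
            (fun q hq => (Finset.mem_filter.mp (Finset.mem_filter.mp hq).1).2.prime)
            fun q hq => (Finset.mem_filter.mp hq).2)
        exact ((Nat.pow_lt_pow_iff_right (by norm_num)).mp (by omega : 2 ^ _ < 2 ^ L)).le
      refine (Finset.sum_le_sum (g := fun _ => ((L : ℝ) ^ 3)⁻¹) fun q hq => ?_).trans ?_
      · have c1 := (Finset.mem_Ioc.mp (Finset.mem_filter.mp (Finset.mem_filter.mp hq).1).1).1
        rw [rt_div (by omega)]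
        have c2 := rt_mono c1.le
        have c3 := one_le_rt (by omega : 1 ≤ q)
        refine inv_anti₀ (by positivity) (hL3.trans (c2.trans (le_self_pow₀ c3 (by norm_num))))
      · rw [Finset.sum_const, nsmul_eq_mul]
        have : (#(U.filter (· ∣ r - 1)) : ℝ) ≤ L := by exact_mod_cast b1
        gcongr
    · rw [Finset.sum_const, nsmul_eq_mul]
      have : (#V : ℝ) ≤ L := by exact_mod_cast hVk.trans hk
      calc (#V : ℝ) * ((L : ℝ) * ((L : ℝ) ^ 3)⁻¹) ≤ L * ((L : ℝ) * ((L : ℝ) ^ 3)⁻¹) := by gcongr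
        _ = (L : ℝ)⁻¹ := by field_simp
        _ ≤ 1 := inv_le_one_of_one_le₀ hL1
  have h4 := wf_sum hN hL hy hk V hV hVk
  linarith

theorem exists_window {q : ℕ} (hq : 1 ≤ q) (T : Finset ℕ) (hT : ∀ p ∈ T, p ^ 4 < q)
    (h : q ≤ (∏ p ∈ T, p) ^ 4) : ∃ T' ⊆ T, q ≤ (∏ p ∈ T', p) ^ 4 ∧ (∏ p ∈ T', p) ^ 2 ≤ q := by
  induction T using Finset.induction_on with
  | empty => exact ⟨∅, subset_rfl, h, by simpa using hq⟩
  | insert p T hp ih =>
    by_cases hc : q ≤ (∏ p ∈ T, p) ^ 4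
    · obtain ⟨T', a1, a2⟩ := ih (fun r hr => hT r (Finset.mem_insert_of_mem hr)) hc
      exact ⟨T', a1.trans (Finset.subset_insert _ _), a2⟩
    · refine ⟨_, subset_rfl, h, ?_⟩
      rw [Finset.prod_insert hp]
      have a1 := hT p (Finset.mem_insert_self _ _)
      refine le_of_pow_le_pow_left₀ (n := 2) (by norm_num) (Nat.zero_le _) ?_
      calc ((p * ∏ p ∈ T, p) ^ 2) ^ 2 = p ^ 4 * (∏ p ∈ T, p) ^ 4 := by ring
        _ ≤ q * q := Nat.mul_le_mul a1.le (not_le.mp hc).le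
        _ = _ := by ring

theorem step_inc {L y N k : ℕ} (hN : N < 2 ^ L) (hL : 1 ≤ L) (hy : L ^ 24 ≤ y) (hk : k ≤ L)
    (V : Finset ℕ) (hV : V ⊆ (Ioc y N).filter Nat.Prime) (hVk : #V ≤ k) :
    ∑ q ∈ (Ioc y N).filter Nat.Prime, rt (Sinc q V) / q ≤ 3 * L + 22 := by
  have hy1 : 1 ≤ y := (Nat.one_le_pow _ _ hL).trans hy
  have hL3 : (L : ℝ) ^ 3 ≤ rt y := by
    refine le_of_pow_le_pow_left₀ (n := 8) (by norm_num) (rt_nonneg _) ?_
    rw [rt_pow, ← pow_mul]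
    exact_mod_cast hy
  have hL1 : (1 : ℝ) ≤ L := by exact_mod_cast hL
  set U := (Ioc y N).filter Nat.Prime with hU
  have h0 : ∀ a q : ℕ, 0 ≤ rt a / q := fun a q => div_nonneg (rt_nonneg _) (Nat.cast_nonneg _)
  have h1 : ∀ q ∈ U, rt (Sinc q V) / q ≤ ∑ T ∈ V.powerset,
      (if (∏ p ∈ T, p) ^ 2 ≤ q ∧ ∀ p ∈ T, Wf q p then rt ((∏ p ∈ T, p) ^ 4) / q else 0)
      + ∑ p ∈ V, (if q ≤ p ^ 4 ∧ Wf q p then rt q / q else 0) := by
    intro q hq
    have a1 : ∀ T ∈ V.powerset, 0 ≤ (if (∏ p ∈ T, p) ^ 2 ≤ q ∧ ∀ p ∈ T, Wf q p then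
        rt ((∏ p ∈ T, p) ^ 4) / q else 0) := fun r _ => by
      split_ifs
      exacts [h0 _ q, le_rfl]
    have a2 : ∀ p ∈ V, 0 ≤ (if q ≤ p ^ 4 ∧ Wf q p then rt q / q else 0) := fun r _ => by
      split_ifs
      exacts [h0 q q, le_rfl]
    have a3 := Finset.sum_nonneg a1
    have a4 := Finset.sum_nonneg a2
    have a5 : Tg q V ⊆ V := Finset.filter_subset _ _
    have a6 : ∀ p ∈ Tg q V, Wf q p := fun p hp => (Finset.mem_filter.mp hp).2.2
    have a7 : rt (Sinc q V) / q ≤ rt q / q := by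
      have := rt_mono (min_le_right ((∏ p ∈ Tg q V, p) ^ 4) q)
      unfold Sinc
      gcongr
    by_cases c1 : (∏ p ∈ Tg q V, p) ^ 2 ≤ q
    · have := Finset.single_le_sum a1 (Finset.mem_powerset.mpr a5)
      rw [if_pos ⟨c1, a6⟩] at this
      have a8 : rt (Sinc q V) / q ≤ rt ((∏ p ∈ Tg q V, p) ^ 4) / q := by
        have := rt_mono (min_le_left ((∏ p ∈ Tg q V, p) ^ 4) q)
        unfold Sinc
        gcongr
      linarith
    by_cases c2 : ∃ p ∈ Tg q V, q ≤ p ^ 4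
    · obtain ⟨p, hp, h⟩ := c2
      have := Finset.single_le_sum a2 (a5 hp)
      rw [if_pos ⟨h, a6 p hp⟩] at this
      linarith
    push Not at c1 c2
    obtain ⟨T, b1, b2, b3⟩ := exists_window (Finset.mem_filter.mp hq).2.one_le (Tg q V) c2 (by
      rw [show (∏ p ∈ Tg q V, p) ^ 4 = ((∏ p ∈ Tg q V, p) ^ 2) ^ 2 by ring]
      exact c1.le.trans (Nat.le_self_pow (by norm_num) _))
    have := Finset.single_le_sum a1 (Finset.mem_powerset.mpr (b1.trans a5))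
    rw [if_pos ⟨b3, fun p hp => a6 p (b1 hp)⟩] at this
    have a8 : rt q / q ≤ rt ((∏ p ∈ T, p) ^ 4) / q := by
      have := rt_mono b2
      gcongr
    linarith
  refine (Finset.sum_le_sum h1).trans ?_
  rw [Finset.sum_add_distrib]
  have h3 : ∑ q ∈ U, ∑ T ∈ V.powerset, (if (∏ p ∈ T, p) ^ 2 ≤ q ∧ ∀ p ∈ T, Wf q p then
      rt ((∏ p ∈ T, p) ^ 4) / q else 0) ≤ (2 + L) * 3 := by
    rw [Finset.sum_comm]
    refine (Finset.sum_le_sum (g := fun T => (2 + (L : ℝ)) * ∏ _p ∈ T, (L : ℝ)⁻¹)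
      fun T hT => ?_).trans ?_
    · have a1 := Finset.mem_powerset.mp hT
      have a2 : ∀ p ∈ T, p.Prime := fun p hp => (Finset.mem_filter.mp (hV (a1 hp))).2
      set P := ∏ p ∈ T, p with hP
      have a3 : 0 < P := Finset.prod_pos fun p hp => (a2 p hp).pos
      rw [← Finset.sum_filter]
      simp only [div_eq_mul_inv]
      rw [← Finset.mul_sum]
      have b1 := tail_sum P (P ^ 2) N a3 (pow_pos a3 2)
        (U.filter fun q => P ^ 2 ≤ q ∧ ∀ p ∈ T, Wf q p)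
        (fun n hn => ⟨(Finset.mem_filter.mp hn).2.1,
          (Finset.mem_Ioc.mp (Finset.mem_filter.mp (Finset.mem_filter.mp hn).1).1).2⟩)
        fun n hn n' hn' h => multi_modEq T a2 (Finset.mem_filter.mp hn).2.2
          (Finset.mem_filter.mp hn').2.2 h
      have b2 := one_le_rt a3
      have b3 : ∏ _p ∈ T, (L : ℝ) ≤ rt P := by
        rw [hP, rt_prod]
        refine Finset.prod_le_prod (fun _ _ => by positivity) fun p hp => ?_
        have := (Finset.mem_Ioc.mp (Finset.mem_filter.mp (hV (a1 hp))).1).1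
        exact (le_self_pow₀ hL1 (by norm_num)).trans (hL3.trans (rt_mono this.le))
      have b4 := log_le hN
      have b5 : (0 : ℝ) < ∏ _p ∈ T, (L : ℝ) := Finset.prod_pos fun _ _ => by positivity
      rw [Finset.prod_inv_distrib, rt_npow]
      calc rt P ^ 4 * ∑ q ∈ U.filter (fun q => P ^ 2 ≤ q ∧ ∀ p ∈ T, Wf q p), (q : ℝ)⁻¹
          ≤ rt P ^ 4 * (P * ((((P ^ 2 : ℕ) : ℝ))⁻¹ + (1 + L) / P ^ 2)) := by
            refine mul_le_mul_of_nonneg_left (b1.trans ?_) (by positivity)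
            gcongr
        _ = (2 + L) * (rt P ^ 4)⁻¹ := by
            push_cast
            rw [← rt_pow P]
            have : rt ((P : ℕ)) ≠ 0 := by linarith
            field_simp
            ring
        _ ≤ _ := by
            refine mul_le_mul_of_nonneg_left (inv_anti₀ b5 (b3.trans ?_)) (by positivity)
            exact le_self_pow₀ b2 (by norm_num)
    · rw [← Finset.mul_sum, ← Finset.prod_one_add]
      refine mul_le_mul_of_nonneg_left ?_ (by positivity)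
      calc ∏ _p ∈ V, (1 + (L : ℝ)⁻¹) ≤ ∏ _p ∈ V, Real.exp ((L : ℝ)⁻¹) :=
            Finset.prod_le_prod (fun _ _ => by positivity) fun _ _ => by
              linarith [Real.add_one_le_exp ((L : ℝ)⁻¹)]
        _ = Real.exp (#V * (L : ℝ)⁻¹) := by rw [Finset.prod_const, Real.exp_nat_mul]
        _ ≤ Real.exp 1 := by
            refine Real.exp_le_exp.mpr ?_
            have : (#V : ℝ) ≤ L := by exact_mod_cast hVk.trans hk
            calc (#V : ℝ) * (L : ℝ)⁻¹ ≤ L * (L : ℝ)⁻¹ := by gcongr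
              _ = 1 := by field_simp
        _ ≤ 3 := Real.exp_one_lt_three.le
  have h4 := wf_sum hN hL hy hk V hV hVk
  linarith

theorem small_sum {y : ℕ} {η : ℝ} (hη : 0 ≤ η) :
    ∑ A ∈ (Icc 1 y).powerset, ((∏ p ∈ A, p : ℕ) : ℝ) ^ η / ((∏ p ∈ A, p : ℕ) : ℝ)
      ≤ Real.exp ((y : ℝ) ^ η * (1 + Real.log y)) := by
  have h1 : ∀ A : Finset ℕ, ((∏ p ∈ A, p : ℕ) : ℝ) ^ η / ((∏ p ∈ A, p : ℕ) : ℝ)
      = ∏ p ∈ A, (p : ℝ) ^ η / p := by
    intro A
    rw [Nat.cast_prod, Finset.prod_div_distrib,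
      Real.finsetProd_rpow _ _ fun _ _ => Nat.cast_nonneg _]
  simp only [h1]
  rw [← Finset.prod_one_add]
  calc ∏ p ∈ Icc 1 y, (1 + (p : ℝ) ^ η / p) ≤ ∏ p ∈ Icc 1 y, Real.exp ((y : ℝ) ^ η * (p : ℝ)⁻¹) :=
        Finset.prod_le_prod (fun _ _ => by positivity) fun p hp => by
          have a1 : (p : ℝ) ^ η ≤ (y : ℝ) ^ η := Real.rpow_le_rpow (Nat.cast_nonneg _)
            (by exact_mod_cast (Finset.mem_Icc.mp hp).2) hη
          have a2 : (p : ℝ) ^ η / p ≤ (y : ℝ) ^ η * (p : ℝ)⁻¹ := by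
            rw [div_eq_mul_inv]
            gcongr
          linarith [Real.add_one_le_exp ((y : ℝ) ^ η * (p : ℝ)⁻¹)]
    _ = Real.exp ((y : ℝ) ^ η * ∑ p ∈ Icc 1 y, (p : ℝ)⁻¹) := by
        rw [← Real.exp_sum, Finset.mul_sum]
    _ ≤ _ := by
        gcongr
        exact sum_inv_le y

end Pool.Agent.Lib.MP_d3ed34_co.Dens
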